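import Mathlib

/-!
# The hierarchy of restricted ET0L systems collapses exactly at level 2

Upper bound. Every ET0L system `G` is simulated by a system all of whose tables have the form:
rewrite one letter `a`, and rewrite one further letter `b` to a trap letter (that is, check that
`b` is absent). Work letters are `u c` (unprimed) and `p c` (primed); a control letter `Z m` shows
the mode `m`: `none` is the priming mode, `some v` is the mode of table `v` or the final mode. A
move of a work letter out of turn is blocked by a lock `X0 c` or `X c v`. Removing a lock creates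
markers `s m'` for all other modes `m'`, and `s m` together with `Z m` is a deadlock. A change of
mode sets new locks together with detectors `r0 c`, `r1 c`; a detector, a lock and a leftover work
letter wait for each other in a cycle, which is a deadlock again. Hence in every successful
derivation each round rewrites all letters with one and the same table.

Lower bound. If `a^n b^n c^n` were generated with at most one active letter per table, some fixed
word would be cut inside the block of letters b for infinitely many `n`; all table applications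
contributing letters a can be pulled to the front without touching the right part of the word,
and then the numbers of letters a and c can be made different.
-/

namespace Pool.Agent.Results.MP_4de4a9_lc.CollapseAtTwo

set_option linter.unusedSectionVars false

/-- `Rew h x y`: the word `y` is obtained from the word `x` by replacing each occurrence of each
letter `c` of `x`, independently, by an element of `h c`. -/
inductive Rew {A B : Type} (h : A → Set (List B)) : List A → List B → Prop
  | nil : Rew h [] []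
  | cons {c : A} {u : List B} {x : List A} {y : List B} :
      u ∈ h c → Rew h x y → Rew h (c :: x) (u ++ y)

/-! ## The families of the problem -/

/-- An ET0L system: alphabet (Sigma), set of tables (H), axiom (omega), terminal alphabet (Delta).
Letters are natural numbers, so the alphabet may be any finite set of symbols. A table is a
finite substitution on the alphabet; its values outside the alphabet play no role. -/
structure ET0L where
  /-- the alphabet Sigma -/
  alphabet : Finset ℕ
  /-- the set H of tables -/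
  tables : Set (ℕ → Set (List ℕ))
  /-- the axiom omega -/
  start : List ℕ
  /-- the terminal alphabet Delta -/
  terminals : Finset ℕ
  tables_finite : tables.Finite
  tables_nonempty : tables.Nonempty
  image_finite : ∀ h ∈ tables, ∀ c ∈ alphabet, (h c).Finite
  image_nonempty : ∀ h ∈ tables, ∀ c ∈ alphabet, (h c).Nonempty
  image_over : ∀ h ∈ tables, ∀ c ∈ alphabet, ∀ w ∈ h c, ∀ x ∈ w, x ∈ alphabet
  start_ne_nil : start ≠ []
  start_over : ∀ x ∈ start, x ∈ alphabet
  terminals_subset : terminals ⊆ alphabet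

/-- One derivation step: all letter occurrences are rewritten by one table. -/
def ET0L.Step (G : ET0L) (x y : List ℕ) : Prop := ∃ h ∈ G.tables, Rew h x y

/-- The generated language: the words over the terminal alphabet derivable from the axiom. -/
def ET0L.language (G : ET0L) : Set (List ℕ) :=
  {w | (∀ a ∈ w, a ∈ G.terminals) ∧ Relation.ReflTransGen G.Step G.start w}

/-- `k`-restricted: in every table at most `k` letters `c` of the alphabet have an image other
than the singleton of the one-letter word `c`. -/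
def ET0L.IsRestricted (k : ℕ) (G : ET0L) : Prop :=
  ∀ h ∈ G.tables, {c | c ∈ G.alphabet ∧ h c ≠ {[c]}}.ncard ≤ k

/-- The family of languages generated by `k`-restricted ET0L systems. -/
def family (k : ℕ) : Set (Set (List ℕ)) :=
  {L | ∃ G : ET0L, G.IsRestricted k ∧ G.language = L}

section rew
variable {A B C : Type} {h h' : A → Set (List B)}

theorem rew_nil_iff {y : List B} : Rew h [] y ↔ y = [] := by
  constructor
  · intro hr; cases hr; rfl
  · rintro rfl; exact Rew.nil

theorem rew_cons_iff {c : A} {x : List A} {y : List B} :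
    Rew h (c :: x) y ↔ ∃ u z, u ∈ h c ∧ Rew h x z ∧ y = u ++ z := by
  constructor
  · intro hr
    cases hr with
    | cons hu hx => exact ⟨_, _, hu, hx, rfl⟩
  · rintro ⟨u, z, hu, hz, rfl⟩
    exact Rew.cons hu hz

theorem rew_append_iff {x1 x2 : List A} {y : List B} :
    Rew h (x1 ++ x2) y ↔ ∃ y1 y2, Rew h x1 y1 ∧ Rew h x2 y2 ∧ y = y1 ++ y2 := by
  induction x1 generalizing y with
  | nil =>
    constructor
    · intro hr; exact ⟨[], y, Rew.nil, hr, rfl⟩
    · rintro ⟨y1, y2, h1, h2, rfl⟩
      rw [rew_nil_iff] at h1; subst h1; exact h2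
  | cons c x1 ih =>
    rw [List.cons_append, rew_cons_iff]
    constructor
    · rintro ⟨u, z, hu, hz, rfl⟩
      obtain ⟨y1, y2, h1, h2, rfl⟩ := ih.1 hz
      exact ⟨u ++ y1, y2, Rew.cons hu h1, h2, by simp⟩
    · rintro ⟨y1, y2, h1, h2, rfl⟩
      obtain ⟨u, z, hu, hz, rfl⟩ := rew_cons_iff.1 h1
      exact ⟨u, z ++ y2, hu, ih.2 ⟨z, y2, hz, h2, rfl⟩, by simp⟩

theorem rew_append {x1 x2 : List A} {y1 y2 : List B} (h1 : Rew h x1 y1) (h2 : Rew h x2 y2) :
    Rew h (x1 ++ x2) (y1 ++ y2) := rew_append_iff.2 ⟨y1, y2, h1, h2, rfl⟩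

theorem rew_singleton_iff {c : A} {y : List B} : Rew h [c] y ↔ y ∈ h c := by
  rw [rew_cons_iff]
  constructor
  · rintro ⟨u, z, hu, hz, rfl⟩
    rw [rew_nil_iff] at hz; subst hz; simpa using hu
  · intro hy
    exact ⟨y, [], hy, Rew.nil, by simp⟩

theorem rew_mono {x : List A} {y : List B} (hm : ∀ c ∈ x, h c ⊆ h' c) (hr : Rew h x y) :
    Rew h' x y := by
  induction hr with
  | nil => exact Rew.nil
  | cons hu _ ih =>
    exact Rew.cons (hm _ (by simp) hu) (ih fun c hc => hm c (by simp [hc]))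

theorem rew_mem_left {x : List A} {y : List B} (hr : Rew h x y) {c : A} (hc : c ∈ x) :
    ∃ u ∈ h c, ∀ b ∈ u, b ∈ y := by
  induction hr with
  | nil => simp at hc
  | cons hu _ ih =>
    rcases List.mem_cons.1 hc with rfl | hc
    · exact ⟨_, hu, fun b hb => by simp [hb]⟩
    · obtain ⟨u, hu, hb⟩ := ih hc
      exact ⟨u, hu, fun b hb' => by simp [hb b hb']⟩

theorem rew_mem_right {x : List A} {y : List B} (hr : Rew h x y) {b : B} (hb : b ∈ y) :
    ∃ c ∈ x, ∃ u ∈ h c, b ∈ u ∧ ∀ b' ∈ u, b' ∈ y := by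
  induction hr with
  | nil => simp at hb
  | @cons c u x y hu _ ih =>
    rcases List.mem_append.1 hb with hb | hb
    · exact ⟨c, by simp, u, hu, hb, fun b' hb' => by simp [hb']⟩
    · obtain ⟨c', hc', u', hu', hbu, hall⟩ := ih hb
      exact ⟨c', by simp [hc'], u', hu', hbu, fun b' hb' => by simp [hall b' hb']⟩

theorem rew_exists {x : List A} (P : B → Prop) (hx : ∀ c ∈ x, ∃ u ∈ h c, ∀ b ∈ u, P b) :
    ∃ y, Rew h x y ∧ ∀ b ∈ y, P b := by
  induction x with
  | nil => exact ⟨[], Rew.nil, by simp⟩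
  | cons c x ih =>
    obtain ⟨u, hu, hP⟩ := hx c (by simp)
    obtain ⟨y, hy, hPy⟩ := ih fun c hc => hx c (by simp [hc])
    refine ⟨u ++ y, Rew.cons hu hy, ?_⟩
    intro b hb
    rcases List.mem_append.1 hb with hb | hb
    · exact hP b hb
    · exact hPy b hb

theorem rew_restrict {x : List A} {y : List B} (P : B → Prop) (hr : Rew h x y)
    (hP : ∀ b ∈ y, P b) : Rew (fun c => {w | w ∈ h c ∧ ∀ b ∈ w, P b}) x y := by
  induction hr with
  | nil => exact Rew.nil
  | cons hu _ ih =>
    refine Rew.cons ⟨hu, fun b hb => hP b (by simp [hb])⟩ (ih fun b hb => hP b (by simp [hb]))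

theorem rew_map_self {x : List A} (f : A → B) (hx : ∀ c ∈ x, [f c] ∈ h c) :
    Rew h x (x.map f) := by
  induction x with
  | nil => exact Rew.nil
  | cons c x ih =>
    have := Rew.cons (hx c (by simp)) (ih fun c hc => hx c (by simp [hc]))
    simpa using this

theorem rew_id {g : A → Set (List A)} {x : List A} (hx : ∀ c ∈ x, [c] ∈ g c) : Rew g x x := by
  have := rew_map_self (h := g) (f := id) (x := x) (by simpa using hx)
  simpa using this

theorem rew_id_eq {g : A → Set (List A)} {x y : List A} (hx : ∀ c ∈ x, g c = {[c]})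
    (hr : Rew g x y) : y = x := by
  induction hr with
  | nil => rfl
  | @cons c u x y hu _ ih =>
    have h1 := hx c (by simp)
    rw [h1] at hu
    have h2 : u = [c] := hu
    rw [h2, ih fun c hc => hx c (by simp [hc])]
    rfl

/-- composition of a substitution with a closed one -/
theorem rew_closure {F : A → Set (List B)} {g : B → Set (List C)} {F' : A → Set (List C)}
    {x : List A} {y : List B} {z : List C}
    (hcl : ∀ c ∈ x, ∀ w ∈ F c, ∀ w', Rew g w w' → w' ∈ F' c)
    (h1 : Rew F x y) (h2 : Rew g y z) : Rew F' x z := by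
  induction h1 generalizing z with
  | nil => rw [rew_nil_iff] at h2; subst h2; exact Rew.nil
  | cons hu _ ih =>
    obtain ⟨z1, z2, h3, h4, rfl⟩ := rew_append_iff.1 h2
    exact Rew.cons (hcl _ (by simp) _ hu _ h3) (ih (fun c hc => hcl c (by simp [hc])) h4)

/-- decomposition of a composed substitution -/
theorem rew_decomp {F : A → Set (List B)} {g : B → Set (List C)} {F' : A → Set (List C)}
    {x : List A} {z : List C}
    (hd : ∀ c ∈ x, ∀ w' ∈ F' c, ∃ w ∈ F c, Rew g w w')
    (h1 : Rew F' x z) : ∃ y, Rew F x y ∧ Rew g y z := by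
  induction h1 with
  | nil => exact ⟨[], Rew.nil, Rew.nil⟩
  | cons hu _ ih =>
    obtain ⟨w, hw, hg⟩ := hd _ (by simp) _ hu
    obtain ⟨y, hy, hgy⟩ := ih fun c hc => hd c (by simp [hc])
    exact ⟨w ++ y, Rew.cons hw hy, rew_append hg hgy⟩

end rew


/-- Internal presentation of ET0L systems used in the proofs: terminal alphabet `T`, set of
remaining letters `N`, alphabet `T ⊕ N`. -/
structure TSys (T N : Type) where
  tables : Set (T ⊕ N → Set (List (T ⊕ N)))
  tables_finite : tables.Finite
  tables_nonempty : tables.Nonempty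
  image_finite : ∀ h ∈ tables, ∀ c, (h c).Finite
  image_nonempty : ∀ h ∈ tables, ∀ c, (h c).Nonempty
  start : List (T ⊕ N)
  start_ne_nil : start ≠ []

namespace TSys
variable {T N : Type}

def Step (G : TSys T N) (x y : List (T ⊕ N)) : Prop := ∃ h ∈ G.tables, Rew h x y

def Der (G : TSys T N) (x : List (T ⊕ N)) : Prop := Relation.ReflTransGen G.Step G.start x

def language (G : TSys T N) : Set (List T) := {w | G.Der (w.map Sum.inl)}

def IsRestricted (k : ℕ) (G : TSys T N) : Prop :=
  ∀ h ∈ G.tables, {c | h c ≠ {[c]}}.ncard ≤ k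

end TSys


/-! ## Lower bound: `a^n b^n c^n` is not generated with one active letter per table -/

section word

abbrev ra (n : ℕ) : List (Fin 3) := List.replicate n 0
abbrev rb (n : ℕ) : List (Fin 3) := List.replicate n 1
abbrev rc (n : ℕ) : List (Fin 3) := List.replicate n 2

def abc (n : ℕ) : List (Fin 3) := ra n ++ (rb n ++ rc n)

theorem cancel_left (n m : ℕ) (X Y : List (Fin 3)) (h : ra n ++ 1 :: X = ra m ++ 1 :: Y) :
    n = m ∧ X = Y := by
  induction n generalizing m with
  | zero =>
    cases m with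
    | zero => simpa using h
    | succ m => simp [List.replicate_succ] at h
  | succ n ih =>
    cases m with
    | zero => simp [List.replicate_succ] at h
    | succ m =>
      simp only [List.replicate_succ, List.cons_append, List.cons.injEq, true_and] at h
      obtain ⟨h1, h2⟩ := ih m h
      exact ⟨by omega, h2⟩

theorem rc_succ' (n : ℕ) : rc (n + 1) = rc n ++ [2] := List.replicate_succ'

theorem rb_succ' (n : ℕ) : rb (n + 1) = rb n ++ [1] := List.replicate_succ'

theorem cancel_right (n m : ℕ) (X Y : List (Fin 3)) (h : X ++ 1 :: rc n = Y ++ 1 :: rc m) :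
    n = m ∧ X = Y := by
  induction n generalizing m with
  | zero =>
    cases m with
    | zero => simpa using h
    | succ m =>
      exfalso
      rw [rc_succ'] at h
      have h' := congrArg (fun l => l.reverse.head?) h
      simp at h'
  | succ n ih =>
    cases m with
    | zero =>
      exfalso
      rw [rc_succ'] at h
      have h' := congrArg (fun l => l.reverse.head?) h
      simp at h'
    | succ m =>
      rw [rc_succ', rc_succ', ← List.cons_append, ← List.cons_append,
        ← List.append_assoc, ← List.append_assoc] at h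
      have h2 := List.append_cancel_right h
      obtain ⟨h3, h4⟩ := ih m h2
      exact ⟨by omega, h4⟩

theorem left_unique {u : List (Fin 3)} {k n m : ℕ} (hk : 1 ≤ k)
    (h : u ++ (rb k ++ rc n) = abc m) : m = n ∧ ∃ j, j + k = n ∧ u = ra n ++ rb j := by
  obtain ⟨k, rfl⟩ : ∃ k', k = k' + 1 := ⟨k - 1, by omega⟩
  have hm : 1 ≤ m := by
    by_contra hm
    have : m = 0 := by omega
    subst this
    simp [abc, List.replicate_succ] at h
  obtain ⟨m, rfl⟩ : ∃ m', m = m' + 1 := ⟨m - 1, by omega⟩
  have e1 : u ++ (rb (k+1) ++ rc n) = (u ++ rb k) ++ 1 :: rc n := by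
    rw [rb_succ']; simp
  have e2 : abc (m+1) = (ra (m+1) ++ rb m) ++ 1 :: rc (m+1) := by
    rw [abc, rb_succ']; simp
  rw [e1, e2] at h
  obtain ⟨h1, h2⟩ := cancel_right _ _ _ _ h
  subst h1
  refine ⟨rfl, ?_⟩
  -- u ++ b^k = a^(m+1) ++ b^m
  have hlen := congrArg List.length h2
  have hcount := congrArg (List.count 1) h2
  rw [List.append_eq_append_iff] at h2
  rcases h2 with ⟨w, hw1, hw2⟩ | ⟨w, hw1, hw2⟩
  · -- a^(m+1) = u ++ w, b^k = w ++ b^m
    have hw : w = [] := by
      cases w with
      | nil => rfl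
      | cons d w =>
        exfalso
        have h3 : d ∈ ra (m+1) := by rw [hw1]; simp
        have h4 : d ∈ rb k := by rw [hw2]; simp
        have h5 := List.eq_of_mem_replicate h3
        have h6 := List.eq_of_mem_replicate h4
        rw [h5] at h6
        exact absurd h6 (by decide)
    subst hw
    have hu : u = ra (m+1) := by simpa using hw1.symm
    have hkm : k = m := by simpa using congrArg List.length hw2
    exact ⟨0, by omega, by simp [hu]⟩
  · -- u = a^(m+1) ++ w, b^m = w ++ b^k
    have hw : w = rb w.length := by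
      rw [rb, List.eq_replicate_iff]
      refine ⟨rfl, fun d hd => ?_⟩
      have : d ∈ rb m := by rw [hw2]; simp [hd]
      exact List.eq_of_mem_replicate this
    have hl := congrArg List.length hw2
    simp at hl
    exact ⟨w.length, by omega, by rw [hw1, ← hw]⟩

theorem right_no_a {v : List (Fin 3)} {j n m : ℕ} (hj : 1 ≤ j)
    (h : ra n ++ rb j ++ v = abc m) : 0 ∉ v := by
  obtain ⟨j, rfl⟩ : ∃ j', j = j' + 1 := ⟨j - 1, by omega⟩
  have hm : 1 ≤ m := by
    by_contra hm
    have : m = 0 := by omega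
    subst this
    simp [abc, List.replicate_succ] at h
  obtain ⟨m, rfl⟩ : ∃ m', m = m' + 1 := ⟨m - 1, by omega⟩
  have e1 : ra n ++ rb (j+1) ++ v = ra n ++ 1 :: (rb j ++ v) := by
    simp [List.replicate_succ]
  have e2 : abc (m+1) = ra (m+1) ++ 1 :: (rb m ++ rc (m+1)) := by
    rw [abc]; simp [List.replicate_succ]
  rw [e1, e2] at h
  obtain ⟨-, h2⟩ := cancel_left _ _ _ _ h
  intro h0
  have h3 : (0 : Fin 3) ∈ rb m ++ rc (m+1) := by rw [← h2]; simp [h0]
  rcases List.mem_append.1 h3 with h4 | h4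
  · exact absurd (List.eq_of_mem_replicate h4) (by decide)
  · exact absurd (List.eq_of_mem_replicate h4) (by decide)

theorem shape_unique {r j k t m : ℕ} (hk : 1 ≤ k)
    (h : (ra r ++ rb j) ++ (rb k ++ rc t) = abc m) : r = m ∧ t = m ∧ j + k = m := by
  obtain ⟨h1, j', h2, h3⟩ := left_unique hk h
  have h4 := congrArg (List.count 0) h3
  have h5 := congrArg (List.count 1) h3
  simp [List.count_replicate] at h4 h5
  omega

end word

section runs
variable {A : Type}

/-- successive application of a list of tables -/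
def Run : List (A → Set (List A)) → List A → List A → Prop
  | [], x, z => z = x
  | h :: ρ, x, z => ∃ y, Rew h x y ∧ Run ρ y z

theorem run_append {ρ : List (A → Set (List A))} {x1 x2 z : List A} :
    Run ρ (x1 ++ x2) z ↔ ∃ z1 z2, Run ρ x1 z1 ∧ Run ρ x2 z2 ∧ z = z1 ++ z2 := by
  induction ρ generalizing x1 x2 z with
  | nil => simp [Run]
  | cons h ρ ih =>
    constructor
    · rintro ⟨y, hy, hr⟩
      obtain ⟨y1, y2, h1, h2, rfl⟩ := rew_append_iff.1 hy
      obtain ⟨z1, z2, h3, h4, rfl⟩ := ih.1 hr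
      exact ⟨z1, z2, ⟨y1, h1, h3⟩, ⟨y2, h2, h4⟩, rfl⟩
    · rintro ⟨z1, z2, ⟨y1, h1, h3⟩, ⟨y2, h2, h4⟩, rfl⟩
      exact ⟨y1 ++ y2, rew_append h1 h2, ih.2 ⟨z1, z2, h3, h4, rfl⟩⟩

theorem run_nil {ρ : List (A → Set (List A))} {z : List A} : Run ρ [] z ↔ z = [] := by
  induction ρ generalizing z with
  | nil => simp [Run]
  | cons h ρ ih =>
    constructor
    · rintro ⟨y, hy, hr⟩
      rw [rew_nil_iff] at hy; subst hy; exact ih.1 hr
    · rintro rfl
      exact ⟨[], Rew.nil, ih.2 rfl⟩

end runs

section lower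
variable {N : Type}

abbrev AA (N : Type) : Type := Fin 3 ⊕ N
abbrev Tb (N : Type) : Type := AA N → Set (List (AA N))

/-- `Tm ρ x w`: the word `x` yields the terminal word `w` under the tables `ρ` -/
def Tm (ρ : List (Tb N)) (x : List (AA N)) (w : List (Fin 3)) : Prop :=
  Run ρ x (w.map Sum.inl)

theorem tm_append {ρ : List (Tb N)} {x1 x2 : List (AA N)} {w : List (Fin 3)} :
    Tm ρ (x1 ++ x2) w ↔ ∃ w1 w2, Tm ρ x1 w1 ∧ Tm ρ x2 w2 ∧ w = w1 ++ w2 := by
  unfold Tm
  rw [run_append]
  constructor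
  · rintro ⟨z1, z2, h1, h2, h3⟩
    obtain ⟨w1, w2, rfl, rfl, rfl⟩ := List.map_eq_append_iff.1 h3
    exact ⟨w1, w2, h1, h2, rfl⟩
  · rintro ⟨w1, w2, h1, h2, rfl⟩
    exact ⟨_, _, h1, h2, by simp⟩

theorem tm_nil {ρ : List (Tb N)} {w : List (Fin 3)} : Tm ρ [] w ↔ w = [] := by
  unfold Tm
  rw [run_nil]; simp

theorem tm_cons {ρ : List (Tb N)} {Z : AA N} {x : List (AA N)} {w : List (Fin 3)} :
    Tm ρ (Z :: x) w ↔ ∃ w1 w2, Tm ρ [Z] w1 ∧ Tm ρ x w2 ∧ w = w1 ++ w2 := by
  have : Z :: x = [Z] ++ x := rfl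
  rw [this, tm_append]

theorem tm_table {h : Tb N} {ρ : List (Tb N)} {x : List (AA N)} {w : List (Fin 3)} :
    Tm (h :: ρ) x w ↔ ∃ y, Rew h x y ∧ Tm ρ y w := Iff.rfl

/-- every letter can be completed -/
theorem tm_exists {ρ : List (Tb N)} {x : List (AA N)} (P : List (Fin 3) → Prop)
    (hP0 : P []) (hP : ∀ w1 w2, P w1 → P w2 → P (w1 ++ w2))
    (h : ∀ Z ∈ x, ∃ s, Tm ρ [Z] s ∧ P s) : ∃ w, Tm ρ x w ∧ P w := by
  induction x with
  | nil => exact ⟨[], tm_nil.2 rfl, hP0⟩
  | cons Z x ih =>
    obtain ⟨s, hs, hPs⟩ := h Z (by simp)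
    obtain ⟨w, hw, hPw⟩ := ih fun Z hZ => h Z (by simp [hZ])
    exact ⟨s ++ w, tm_cons.2 ⟨s, w, hs, hw, rfl⟩, hP _ _ hPs hPw⟩

theorem tm_letter {ρ : List (Tb N)} {x : List (AA N)} {w : List (Fin 3)} (h : Tm ρ x w)
    {Z : AA N} (hZ : Z ∈ x) : ∃ w1 s w2, w = w1 ++ s ++ w2 ∧ Tm ρ [Z] s ∧
      ∀ s', Tm ρ [Z] s' → Tm ρ x (w1 ++ s' ++ w2) := by
  obtain ⟨p, q, rfl⟩ := List.append_of_mem hZ
  obtain ⟨w1, w2, h1, h2, rfl⟩ := tm_append.1 h
  obtain ⟨s, w3, h3, h4, rfl⟩ := tm_cons.1 h2
  refine ⟨w1, s, w3, by simp, h3, ?_⟩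
  intro s' hs'
  have := tm_append.2 ⟨w1, s' ++ w3, h1, tm_cons.2 ⟨s', w3, hs', h4, rfl⟩, rfl⟩
  simpa using this

/-- `h` rewrites at most the letter `V` -/
def Only (h : Tb N) (V : AA N) : Prop := ∀ c, c ≠ V → h c = {[c]}

theorem only_rew {h : Tb N} {V : AA N} (hV : Only h V) {x y : List (AA N)} (hx : V ∉ x)
    (hr : Rew h x y) : y = x := by
  refine rew_id_eq (g := h) ?_ hr
  intro c hc
  exact hV c fun hcV => hx (hcV ▸ hc)

theorem only_self {h : Tb N} {V : AA N} (hV : Only h V) {x : List (AA N)} (hx : V ∉ x) :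
    Rew h x x := by
  refine rew_id (g := h) ?_
  intro c hc
  rw [hV c fun hcV => hx (hcV ▸ hc)]; rfl

theorem only_tm {h : Tb N} {V : AA N} (hV : Only h V) {ρ : List (Tb N)} {Z : AA N}
    (hZ : Z ≠ V) {s : List (Fin 3)} : Tm (h :: ρ) [Z] s ↔ Tm ρ [Z] s := by
  rw [tm_table]
  constructor
  · rintro ⟨y, hy, hs⟩
    rw [rew_singleton_iff, hV Z hZ] at hy
    have : y = [Z] := hy
    rw [← this]; exact hs
  · intro hs
    refine ⟨[Z], ?_, hs⟩
    rw [rew_singleton_iff, hV Z hZ]; rfl

variable (G : TSys (Fin 3) N)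

structure Gd (ρ : List (Tb N)) (xl xr : List (AA N)) (n j k : ℕ) : Prop where
  hn : j + k = n
  hj : 1 ≤ j
  hk : 1 ≤ k
  l : Tm ρ xl (ra n ++ rb j)
  r : Tm ρ xr (rb k ++ rc n)
  d : G.Der (xl ++ xr)
  t : ∀ h ∈ ρ, h ∈ G.tables

theorem der_run {G : TSys (Fin 3) N} {x y : List (AA N)} {ρ : List (Tb N)} (hx : G.Der x)
    (ht : ∀ h ∈ ρ, h ∈ G.tables) (hr : Run ρ x y) : G.Der y := by
  induction ρ generalizing x with
  | nil =>
    have : y = x := hr
    rw [this]; exact hx
  | cons h ρ ih =>
    obtain ⟨z, hz, hr⟩ := hr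
    exact ih (Relation.ReflTransGen.tail hx ⟨h, ht h (by simp), hz⟩)
      (fun h hh => ht h (by simp [hh])) hr

variable {G}

theorem tm_lang (hL : G.language = {w | ∃ n, w = abc n}) {x : List (AA N)} {ρ : List (Tb N)}
    {w : List (Fin 3)} (hx : G.Der x) (ht : ∀ h ∈ ρ, h ∈ G.tables) (hw : Tm ρ x w) :
    ∃ n, w = abc n := by
  have h1 : w ∈ G.language := der_run hx ht hw
  rw [hL] at h1
  exact h1

theorem gd_left (hL : G.language = {w | ∃ n, w = abc n}) {ρ : List (Tb N)}
    {xl xr : List (AA N)} {n k : ℕ} (hk : 1 ≤ k) (hr : Tm ρ xr (rb k ++ rc n))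
    (hd : G.Der (xl ++ xr)) (ht : ∀ h ∈ ρ, h ∈ G.tables) {u : List (Fin 3)}
    (hu : Tm ρ xl u) : ∃ j, j + k = n ∧ u = ra n ++ rb j := by
  obtain ⟨m, hm⟩ := tm_lang hL hd ht (tm_append.2 ⟨_, _, hu, hr, rfl⟩)
  exact (left_unique hk hm).2

theorem gd_right (hL : G.language = {w | ∃ n, w = abc n}) {ρ : List (Tb N)}
    {xl xr : List (AA N)} {n j k : ℕ} (hg : Gd G ρ xl xr n j k) {Z : AA N} (hZ : Z ∈ xr)
    {s : List (Fin 3)} (hs : Tm ρ [Z] s) : 0 ∉ s := by
  obtain ⟨w1, s0, w2, h1, h2, h3⟩ := tm_letter hg.r hZ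
  have h4 := h3 s hs
  obtain ⟨m, hm⟩ := tm_lang hL hg.d hg.t (tm_append.2 ⟨_, _, hg.l, h4, rfl⟩)
  have h5 := right_no_a hg.hj hm
  intro h0
  exact h5 (by simp [h0])

def Phi (x : List (AA N)) (ρ : List (Tb N)) : Prop :=
  ∀ Z ∈ x, ∀ s, Tm ρ [Z] s → List.count 0 s ≤ (open Classical in if Z = Sum.inl 0 then 1 else 0)

def Cpl (ρ : List (Tb N)) (Z : AA N) : Prop := ∃ s, Tm ρ [Z] s

theorem cpl_of_tm {ρ : List (Tb N)} {x : List (AA N)} {w : List (Fin 3)} (h : Tm ρ x w) :
    ∀ Z ∈ x, Cpl ρ Z := by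
  intro Z hZ
  obtain ⟨w1, s, w2, -, hs, -⟩ := tm_letter h hZ
  exact ⟨s, hs⟩

theorem tm_of_cpl {ρ : List (Tb N)} {x : List (AA N)} (h : ∀ Z ∈ x, Cpl ρ Z) :
    ∃ w, Tm ρ x w := by
  obtain ⟨w, hw, -⟩ := tm_exists (ρ := ρ) (x := x) (fun _ => True) trivial
    (fun _ _ _ _ => trivial) (fun Z hZ => by
      obtain ⟨s, hs⟩ := h Z hZ
      exact ⟨s, hs, trivial⟩)
  exact ⟨w, hw⟩

/-- the conclusion of the pulling lemma -/
structure Pull (G : TSys (Fin 3) N) (ρ : List (Tb N)) (xl xr : List (AA N)) (n k : ℕ)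
    (g : Tb N) (U : AA N) (σ : List (Tb N)) (w : List (AA N)) : Prop where
  hg : g ∈ G.tables
  ho : Only g U
  ht : ∀ h ∈ σ, h ∈ G.tables
  hlen : σ.length < ρ.length
  hU : U ∈ xl
  ha : ∃ s, Tm ρ [U] s ∧ 0 ∈ s
  hc : ∀ Z, (Z ∈ xl ∨ Z ∈ xr) → Z ≠ U → Cpl σ Z
  hw : w ∈ g U
  hwc : ∀ Z ∈ w, Cpl σ Z
  hr : Tm σ xr (rb k ++ rc n)

theorem pull (hL : G.language = {w | ∃ n, w = abc n})
    (hO : ∀ h ∈ G.tables, ∃ V, Only h V) (ρ : List (Tb N)) :
    ∀ xl xr n j k, Gd G ρ xl xr n j k →
      Phi xl ρ ∨ ∃ g U σ w, Pull G ρ xl xr n k g U σ w := by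
  induction ρ with
  | nil =>
    intro xl xr n j k hg
    left
    intro Z _ s hs
    have h1 : s.map Sum.inl = [Z] := hs
    obtain ⟨t, rfl, h2⟩ : ∃ t, s = [t] ∧ Sum.inl t = Z := by
      cases s with
      | nil => simp at h1
      | cons t s =>
        cases s with
        | nil => exact ⟨t, rfl, by simpa using h1⟩
        | cons t' s => simp at h1
    subst h2
    by_cases ht : t = 0
    · subst ht; simp
    · have : (Sum.inl t : AA N) ≠ Sum.inl 0 := by simpa using ht
      rw [if_neg this]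
      simp [ht]
  | cons h ρ ih =>
    intro xl xr n j k hg
    obtain ⟨V, hV⟩ := hO h (hg.t h (by simp))
    obtain ⟨xl1, hxl, hl1⟩ := tm_table.1 hg.l
    obtain ⟨xr1, hxr, hr1⟩ := tm_table.1 hg.r
    have hd1 : G.Der (xl1 ++ xr1) :=
      Relation.ReflTransGen.tail hg.d ⟨h, hg.t h (by simp), rew_append hxl hxr⟩
    have hg1 : Gd G ρ xl1 xr1 n j k :=
      ⟨hg.hn, hg.hj, hg.hk, hl1, hr1, hd1, fun h hh => hg.t h (by simp [hh])⟩
    by_cases hVx : V ∈ xl ∨ V ∈ xr
    · by_cases haful : ∃ s, Tm (h :: ρ) [V] s ∧ 0 ∈ s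
      · -- the table `h` is an `a`-step
        right
        have hVr : V ∉ xr := by
          intro hVr
          obtain ⟨s, hs, h0⟩ := haful
          exact gd_right hL hg hVr hs h0
        have hVl : V ∈ xl := hVx.resolve_right hVr
        have hxr1 : xr1 = xr := only_rew hV hVr hxr
        obtain ⟨w, hw, hwl⟩ := rew_mem_left hxl hVl
        refine ⟨h, V, ρ, w, ?_⟩
        refine ⟨hg.t h (by simp), hV, fun h hh => hg.t h (by simp [hh]), by simp, hVl, haful,
          ?_, hw, ?_, ?_⟩
        · intro Z hZ hZV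
          have : Cpl (h :: ρ) Z := by
            rcases hZ with hZ | hZ
            · exact cpl_of_tm hg.l Z hZ
            · exact cpl_of_tm hg.r Z hZ
          obtain ⟨s, hs⟩ := this
          exact ⟨s, (only_tm hV hZV).1 hs⟩
        · intro Z hZ
          exact cpl_of_tm hl1 Z (hwl Z hZ)
        · rw [← hxr1]; exact hr1
      · -- the table `h` is not an `a`-step
        push Not at haful
        -- words substituted for `V`
        obtain ⟨w0, hw0, hw0x⟩ : ∃ w0 ∈ h V, ∀ b ∈ w0, b ∈ xl1 ∨ b ∈ xr1 := by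
          rcases hVx with hVx | hVx
          · obtain ⟨w, hw, hwl⟩ := rew_mem_left hxl hVx
            exact ⟨w, hw, fun b hb => Or.inl (hwl b hb)⟩
          · obtain ⟨w, hw, hwl⟩ := rew_mem_left hxr hVx
            exact ⟨w, hw, fun b hb => Or.inr (hwl b hb)⟩
        have hcpl1 : ∀ b, (b ∈ xl1 ∨ b ∈ xr1) → Cpl ρ b := by
          rintro b (hb | hb)
          · exact cpl_of_tm hl1 b hb
          · exact cpl_of_tm hr1 b hb
        -- letters of completable words substituted for `V` are free of `a`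
        have hfree : ∀ w ∈ h V, (∀ b ∈ w, Cpl ρ b) → ∀ b ∈ w, ∀ s, Tm ρ [b] s → 0 ∉ s := by
          intro w hw hwc b hb s hs h0
          obtain ⟨w', hw'⟩ := tm_of_cpl hwc
          obtain ⟨s1, s0, s2, -, -, h3⟩ := tm_letter hw' hb
          have h4 := h3 s hs
          have h5 : Tm (h :: ρ) [V] (s1 ++ s ++ s2) :=
            tm_table.2 ⟨w, rew_singleton_iff.2 hw, h4⟩
          exact haful _ h5 (by simp [h0])
        have hstay : ∀ Z, (Z ∈ xl ∨ Z ∈ xr) → Z ≠ V → (Z ∈ xl1 ∨ Z ∈ xr1) := by
          intro Z hZ hZV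
          rcases hZ with hZ | hZ
          · obtain ⟨w, hw, hwl⟩ := rew_mem_left hxl hZ
            rw [hV Z hZV] at hw
            have : w = [Z] := hw
            subst this
            exact Or.inl (hwl Z (by simp))
          · obtain ⟨w, hw, hwl⟩ := rew_mem_left hxr hZ
            rw [hV Z hZV] at hw
            have : w = [Z] := hw
            subst this
            exact Or.inr (hwl Z (by simp))
        have hstayl : ∀ Z, Z ∈ xl → Z ≠ V → Z ∈ xl1 := by
          intro Z hZ hZV
          obtain ⟨w, hw, hwl⟩ := rew_mem_left hxl hZ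
          rw [hV Z hZV] at hw
          have : w = [Z] := hw
          subst this
          exact hwl Z (by simp)
        rcases ih xl1 xr1 n j k hg1 with hF | ⟨g, U, σ, w, hP⟩
        · left
          intro Z hZ s hs
          by_cases hZV : Z = V
          · subst hZV
            have : List.count 0 s = 0 := List.count_eq_zero.2 (haful s hs)
            rw [this]; exact Nat.zero_le _
          · exact hF Z (hstayl Z hZ hZV) s ((only_tm hV hZV).1 hs)
        · right
          obtain ⟨sU, hsU, h0U⟩ := hP.ha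
          -- `U` is an old letter different from `V`
          have hUold : U ∈ xl ∧ U ≠ V := by
            obtain ⟨c, hc, w', hw', hUw, hall⟩ := rew_mem_right hxl hP.hU
            by_cases hcV : c = V
            · subst hcV
              exfalso
              refine hfree w' hw' ?_ U hUw sU hsU h0U
              intro b hb
              exact cpl_of_tm hl1 b (hall b hb)
            · rw [hV c hcV] at hw'
              have : w' = [c] := hw'
              subst this
              have : U = c := by simpa using hUw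
              subst this
              exact ⟨hc, hcV⟩
          have hUw0 : U ∉ w0 := by
            intro hU
            exact hfree w0 hw0 (fun b hb => hcpl1 b (hw0x b hb)) U hU sU hsU h0U
          have hVcpl : Cpl (h :: σ) V := by
            obtain ⟨s, hs⟩ := tm_of_cpl (ρ := σ) (x := w0) (by
              intro Z hZ
              exact hP.hc Z (hw0x Z hZ) (fun h' => hUw0 (h' ▸ hZ)))
            exact ⟨s, tm_table.2 ⟨w0, rew_singleton_iff.2 hw0, hs⟩⟩
          refine ⟨g, U, h :: σ, w, ?_⟩
          refine ⟨hP.hg, hP.ho, ?_, ?_, hUold.1, ⟨sU, (only_tm hV hUold.2).2 hsU, h0U⟩,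
            ?_, hP.hw, ?_, ?_⟩
          · intro h' hh'
            rcases List.mem_cons.1 hh' with rfl | hh'
            · exact hg.t _ (by simp)
            · exact hP.ht h' hh'
          · have := hP.hlen
            simp only [List.length_cons]; omega
          · intro Z hZ hZU
            by_cases hZV : Z = V
            · rw [hZV]; exact hVcpl
            · obtain ⟨s, hs⟩ := hP.hc Z (hstay Z hZ hZV) hZU
              exact ⟨s, (only_tm hV hZV).2 hs⟩
          · intro Z hZ
            by_cases hZV : Z = V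
            · rw [hZV]; exact hVcpl
            · obtain ⟨s, hs⟩ := hP.hwc Z hZ
              exact ⟨s, (only_tm hV hZV).2 hs⟩
          · exact tm_table.2 ⟨xr1, hxr, hP.hr⟩
    · -- idle table
      push Not at hVx
      have hxl1 : xl1 = xl := only_rew hV hVx.1 hxl
      have hxr1 : xr1 = xr := only_rew hV hVx.2 hxr
      rw [hxl1, hxr1] at hg1
      rcases ih xl xr n j k hg1 with hF | ⟨g, U, σ, w, hP⟩
      · left
        intro Z hZ s hs
        exact hF Z hZ s ((only_tm hV (fun h' => hVx.1 (h' ▸ hZ))).1 hs)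
      · right
        refine ⟨g, U, σ, w, hP.hg, hP.ho, hP.ht, ?_, hP.hU, ?_, hP.hc, hP.hw, hP.hwc, hP.hr⟩
        · have := hP.hlen
          simp only [List.length_cons]; omega
        · obtain ⟨s, hs, h0⟩ := hP.ha
          exact ⟨s, (only_tm hV (fun h' => hVx.1 (h' ▸ hP.hU))).2 hs, h0⟩

/-- all `a`-steps can be performed first, without touching the right part -/
theorem sort (hL : G.language = {w | ∃ n, w = abc n})
    (hO : ∀ h ∈ G.tables, ∃ V, Only h V) (l : ℕ) :
    ∀ ρ : List (Tb N), ρ.length < l → ∀ xl xr n j k, Gd G ρ xl xr n j k →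
      ∃ σ y, Gd G σ y xr n j k ∧ Phi y σ := by
  induction l with
  | zero => intro ρ h; omega
  | succ l ih =>
    intro ρ hlen xl xr n j k hg
    rcases pull hL hO ρ xl xr n j k hg with hF | ⟨g, U, σ, w, hP⟩
    · exact ⟨ρ, xl, hg, hF⟩
    · have hUr : U ∉ xr := by
        intro hU
        obtain ⟨s, hs, h0⟩ := hP.ha
        exact gd_right hL hg hU hs h0
      obtain ⟨zl, hzl, hcz⟩ := rew_exists (h := g) (x := xl) (Cpl σ) (by
        intro c hc
        by_cases hcU : c = U
        · subst hcU
          exact ⟨w, hP.hw, hP.hwc⟩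
        · refine ⟨[c], ?_, ?_⟩
          · rw [hP.ho c hcU]; rfl
          · intro b hb
            have : b = c := by simpa using hb
            subst this
            exact hP.hc b (Or.inl hc) hcU)
      have hd : G.Der (zl ++ xr) :=
        Relation.ReflTransGen.tail hg.d ⟨g, hP.hg, rew_append hzl (only_self hP.ho hUr)⟩
      obtain ⟨u, hu⟩ := tm_of_cpl hcz
      obtain ⟨j', hj', rfl⟩ := gd_left hL hg.hk hP.hr hd hP.ht hu
      have hjj : j' = j := by have := hg.hn; omega
      subst hjj
      have := hP.hlen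
      exact ih σ (by omega) zl xr n j' k ⟨hg.hn, hg.hj, hg.hk, hu, hP.hr, hd, hP.ht⟩

end lower

section cross
variable {N : Type} {G : TSys (Fin 3) N}

/-- number of occurrences of the letter `a` -/
noncomputable def na : List (AA N) → ℕ
  | [] => 0
  | Z :: x => (open Classical in if Z = Sum.inl 0 then 1 else 0) + na x

theorem phi_count {x : List (AA N)} {ρ : List (Tb N)} (hF : Phi x ρ) {w : List (Fin 3)}
    (hw : Tm ρ x w) :
    List.count 0 w ≤ na x := by
  induction x generalizing w with
  | nil => rw [tm_nil] at hw; subst hw; simp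
  | cons Z x ih =>
    obtain ⟨w1, w2, h1, h2, rfl⟩ := tm_cons.1 hw
    have h3 := hF Z (by simp) w1 h1
    have h4 := ih (fun Z hZ => hF Z (by simp [hZ])) h2
    rw [List.count_append, na]
    omega

theorem phi_letter {x : List (AA N)} {ρ : List (Tb N)} (hF : Phi x ρ) {w : List (Fin 3)}
    (hw : Tm ρ x w) (h0 : 0 ∈ w) : ∃ s, Tm ρ [Sum.inl 0] s ∧ 0 ∈ s := by
  induction x generalizing w with
  | nil => rw [tm_nil] at hw; subst hw; simp at h0
  | cons Z x ih =>
    obtain ⟨w1, w2, h1, h2, rfl⟩ := tm_cons.1 hw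
    rcases List.mem_append.1 h0 with h0 | h0
    · by_cases hZ : Z = Sum.inl 0
      · subst hZ; exact ⟨w1, h1, h0⟩
      · have h3 := hF Z (by simp) w1 h1
        rw [if_neg hZ] at h3
        have : 0 < List.count 0 w1 := List.count_pos_iff.2 h0
        omega
    · exact ih (fun Z hZ => hF Z (by simp [hZ])) h2 h0

theorem tm_many {x : List (AA N)} {ρ : List (Tb N)} {s0 : List (Fin 3)}
    (hs0 : Tm ρ [Sum.inl 0] s0) (h0 : 0 ∈ s0) (hc : ∀ Z ∈ x, Cpl ρ Z) :
    ∃ w, Tm ρ x w ∧ na x ≤ List.count 0 w := by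
  induction x with
  | nil => exact ⟨[], tm_nil.2 rfl, by simp [na]⟩
  | cons Z x ih =>
    obtain ⟨w, hw, hcount⟩ := ih fun Z hZ => hc Z (by simp [hZ])
    by_cases hZ : Z = Sum.inl 0
    · subst hZ
      refine ⟨s0 ++ w, tm_cons.2 ⟨_, _, hs0, hw, rfl⟩, ?_⟩
      rw [na, if_pos rfl, List.count_append]
      have : 0 < List.count 0 s0 := List.count_pos_iff.2 h0
      omega
    · obtain ⟨s, hs⟩ := hc Z (by simp)
      refine ⟨s ++ w, tm_cons.2 ⟨_, _, hs, hw, rfl⟩, ?_⟩
      rw [na, if_neg hZ, List.count_append]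
      omega

theorem cross (hL : G.language = {w | ∃ n, w = abc n}) {σ σ' : List (Tb N)}
    {y y' xr : List (AA N)} {n j k n' j' k' : ℕ} (hg : Gd G σ y xr n j k) (hF : Phi y σ)
    (hg' : Gd G σ' y' xr n' j' k') (hF' : Phi y' σ') (hsub : ∀ Z ∈ y', Z ∈ y)
    (hlt : n < n') : False := by
  have h1 := phi_count hF' hg'.l
  have h2 : List.count 0 (ra n' ++ rb j') = n' := by
    simp [List.count_replicate]
  rw [h2] at h1
  have hn : 1 ≤ n := by have := hg.hn; have := hg.hj; omega
  have h0 : (0 : Fin 3) ∈ ra n ++ rb j := by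
    refine List.mem_append.2 (Or.inl ?_)
    rw [List.mem_replicate]; exact ⟨by omega, rfl⟩
  obtain ⟨s0, hs0, h00⟩ := phi_letter hF hg.l h0
  obtain ⟨w, hw, hcount⟩ := tm_many (x := y') hs0 h00
    (fun Z hZ => cpl_of_tm hg.l Z (hsub Z hZ))
  obtain ⟨j'', -, hw'⟩ := gd_left hL hg.hk hg.r hg'.d hg.t hw
  have h3 : List.count 0 w = n := by
    rw [hw']; simp [List.count_replicate]
  omega

/-- no fixed pair of words has good futures for infinitely many `n` -/
theorem no_infinite [Finite N] (hL : G.language = {w | ∃ n, w = abc n})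
    (hO : ∀ h ∈ G.tables, ∃ V, Only h V) (xl xr : List (AA N)) (S : Set ℕ) (hS : S.Infinite)
    (hgood : ∀ n ∈ S, ∃ ρ j k, Gd G ρ xl xr n j k) : False := by
  have h1 : ∀ n : S, ∃ σ y j k, Gd G σ y xr n j k ∧ Phi y σ := by
    rintro ⟨n, hn⟩
    obtain ⟨ρ, j, k, hg⟩ := hgood n hn
    obtain ⟨σ, y, h2, h3⟩ := sort hL hO (ρ.length + 1) ρ (by omega) xl xr n j k hg
    exact ⟨σ, y, j, k, h2, h3⟩
  choose σ y j k hg hF using h1
  have : Infinite S := hS.to_subtype
  obtain ⟨a, b, hab, hfab⟩ := Finite.exists_ne_map_eq_of_infinite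
    (fun n : S => {Z | Z ∈ y n})
  have hmem : ∀ Z, Z ∈ y a ↔ Z ∈ y b := fun Z => Set.ext_iff.1 hfab Z
  rcases lt_trichotomy a.1 b.1 with h | h | h
  · exact cross hL (hg a) (hF a) (hg b) (hF b) (fun Z hZ => (hmem Z).2 hZ) h
  · exact hab (Subtype.ext h)
  · exact cross hL (hg b) (hF b) (hg a) (hF a) (fun Z hZ => (hmem Z).1 hZ) h

/-- either the block `b^s` is cut by a boundary between two letters, or it comes from one
letter -/
theorem dichotomy {ρ : List (Tb N)} {x : List (AA N)} {r s t : ℕ} (hs : 1 ≤ s)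
    (h : Tm ρ x (ra r ++ (rb s ++ rc t))) :
    (∃ xl xr j k, x = xl ++ xr ∧ Tm ρ xl (ra r ++ rb j) ∧ Tm ρ xr (rb k ++ rc t) ∧
      j + k = s ∧ 1 ≤ j ∧ 1 ≤ k) ∨
    (∃ P M R r' p q t', x = P ++ M :: R ∧ Tm ρ P (ra r') ∧
      Tm ρ [M] (ra p ++ (rb s ++ rc q)) ∧ Tm ρ R (rc t') ∧ r' + p = r ∧ q + t' = t) := by
  induction x generalizing r with
  | nil =>
    rw [tm_nil] at h
    have := congrArg List.length h
    simp at this
    omega
  | cons Z x ih =>
    obtain ⟨w1, w2, h1, h2, h3⟩ := tm_cons.1 h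
    rcases List.append_eq_append_iff.1 h3.symm with ⟨c, hc1, hc2⟩ | ⟨c, hc1, hc2⟩
    · -- a^r = w1 ++ c, w2 = c ++ ...
      have e1 : w1 = ra w1.length := by
        rw [ra, List.eq_replicate_iff]
        exact ⟨rfl, fun d hd => List.eq_of_mem_replicate (n := r) (by rw [← ra, hc1]; simp [hd])⟩
      have e2 : c = ra c.length := by
        rw [ra, List.eq_replicate_iff]
        exact ⟨rfl, fun d hd => List.eq_of_mem_replicate (n := r) (by rw [← ra, hc1]; simp [hd])⟩
      have hlen := congrArg List.length hc1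
      simp at hlen
      rw [hc2, e2] at h2
      rcases ih h2 with ⟨xl, xr, j, k, rfl, ha, hb, hjk, hj, hk⟩ |
        ⟨P, M, R, r', p, q, t', rfl, hP, hM, hR, hr, ht⟩
      · left
        refine ⟨Z :: xl, xr, j, k, rfl, ?_, hb, hjk, hj, hk⟩
        refine tm_cons.2 ⟨w1, _, h1, ha, ?_⟩
        rw [hc1, e2]
        simp
      · right
        refine ⟨Z :: P, M, R, w1.length + r', p, q, t', rfl, ?_, hM, hR, by omega, ht⟩
        refine tm_cons.2 ⟨w1, _, h1, hP, ?_⟩
        rw [ra, List.replicate_add, ← ra, ← e1]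
    · -- w1 = a^r ++ c, b^s c^t = c ++ w2
      rcases List.append_eq_append_iff.1 hc2 with ⟨d, hd1, hd2⟩ | ⟨d, hd1, hd2⟩
      · -- c = b^s ++ d, c^t = d ++ w2
        right
        have e1 : d = rc d.length := by
          rw [rc, List.eq_replicate_iff]
          exact ⟨rfl, fun e he =>
            List.eq_of_mem_replicate (n := t) (by rw [← rc, hd2]; simp [he])⟩
        have e2 : w2 = rc w2.length := by
          rw [rc, List.eq_replicate_iff]
          exact ⟨rfl, fun e he =>
            List.eq_of_mem_replicate (n := t) (by rw [← rc, hd2]; simp [he])⟩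
        have hlen := congrArg List.length hd2
        simp at hlen
        refine ⟨[], Z, x, 0, r, d.length, w2.length, rfl, tm_nil.2 (by simp), ?_, ?_, by omega,
          by omega⟩
        · rw [← e1, ← hd1, ← hc1]; exact h1
        · rw [← e2]; exact h2
      · -- b^s = c ++ d, w2 = d ++ c^t
        have e1 : c = rb c.length := by
          rw [rb, List.eq_replicate_iff]
          exact ⟨rfl, fun e he =>
            List.eq_of_mem_replicate (n := s) (by rw [← rb, hd1]; simp [he])⟩
        have e2 : d = rb d.length := by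
          rw [rb, List.eq_replicate_iff]
          exact ⟨rfl, fun e he =>
            List.eq_of_mem_replicate (n := s) (by rw [← rb, hd1]; simp [he])⟩
        have hlen := congrArg List.length hd1
        simp at hlen
        by_cases hd0 : d.length = 0
        · have hdn : d = [] := List.eq_nil_of_length_eq_zero hd0
          subst hdn
          right
          refine ⟨[], Z, x, 0, r, 0, t, rfl, tm_nil.2 (by simp), ?_, ?_, by omega, by omega⟩
          · have : c = rb s := by simpa using hd1.symm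
            rw [this] at hc1
            simp only [List.replicate_zero, List.append_nil]
            rw [← hc1]; exact h1
          · simpa [hd2] using h2
        · by_cases hc0 : c.length = 0
          · have hcn : c = [] := List.eq_nil_of_length_eq_zero hc0
            subst hcn
            have hds : d = rb s := by simpa using hd1.symm
            have hw1 : w1 = ra r := by simpa using hc1
            have h2' : Tm ρ x (ra 0 ++ (rb s ++ rc t)) := by
              rw [hd2, hds] at h2
              simpa using h2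
            rcases ih h2' with ⟨xl, xr, j, k, rfl, ha, hb, hjk, hj, hk⟩ |
              ⟨P, M, R, r', p, q, t', rfl, hP, hM, hR, hr, ht⟩
            · left
              refine ⟨Z :: xl, xr, j, k, rfl, ?_, hb, hjk, hj, hk⟩
              refine tm_cons.2 ⟨w1, _, h1, ha, ?_⟩
              rw [hw1]; simp
            · right
              have hr' : r' = 0 := by omega
              have hp' : p = 0 := by omega
              subst hr'
              subst hp'
              refine ⟨Z :: P, M, R, r, 0, q, t', rfl, ?_, hM, hR, by omega, ht⟩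
              refine tm_cons.2 ⟨w1, _, h1, hP, ?_⟩
              rw [hw1]; simp
          · left
            refine ⟨[Z], x, c.length, d.length, rfl, ?_, ?_, by omega, by omega, by omega⟩
            · rw [← e1, ← hc1]; exact h1
            · rw [← e2, ← hd2]; exact h2

end cross

section final
variable {N : Type} {G : TSys (Fin 3) N}

theorem letters_a {ρ : List (Tb N)} {P : List (AA N)} {r : ℕ} (h : Tm ρ P (ra r)) :
    ∀ Z ∈ P, ∃ i, Tm ρ [Z] (ra i) := by
  intro Z hZ
  obtain ⟨w1, s, w2, h1, h2, -⟩ := tm_letter h hZ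
  have : s = ra s.length := by
    rw [ra, List.eq_replicate_iff]
    exact ⟨rfl, fun d hd => List.eq_of_mem_replicate (n := r) (by rw [← ra, h1]; simp [hd])⟩
  exact ⟨s.length, this ▸ h2⟩

theorem letters_c {ρ : List (Tb N)} {P : List (AA N)} {r : ℕ} (h : Tm ρ P (rc r)) :
    ∀ Z ∈ P, ∃ i, Tm ρ [Z] (rc i) := by
  intro Z hZ
  obtain ⟨w1, s, w2, h1, h2, -⟩ := tm_letter h hZ
  have : s = rc s.length := by
    rw [rc, List.eq_replicate_iff]
    exact ⟨rfl, fun d hd => List.eq_of_mem_replicate (n := r) (by rw [← rc, h1]; simp [hd])⟩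
  exact ⟨s.length, this ▸ h2⟩

theorem word_a {ρ : List (Tb N)} {P : List (AA N)} (h : ∀ Z ∈ P, ∃ i, Tm ρ [Z] (ra i)) :
    ∃ i, Tm ρ P (ra i) := by
  obtain ⟨w, hw, i, rfl⟩ := tm_exists (ρ := ρ) (x := P) (fun w => ∃ i, w = ra i) ⟨0, rfl⟩
    (by
      rintro _ _ ⟨i, rfl⟩ ⟨j, rfl⟩
      exact ⟨i + j, (List.replicate_add ..).symm⟩)
    (fun Z hZ => by
      obtain ⟨i, hi⟩ := h Z hZ
      exact ⟨_, hi, i, rfl⟩)
  exact ⟨i, hw⟩

theorem word_c {ρ : List (Tb N)} {P : List (AA N)} (h : ∀ Z ∈ P, ∃ i, Tm ρ [Z] (rc i)) :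
    ∃ i, Tm ρ P (rc i) := by
  obtain ⟨w, hw, i, rfl⟩ := tm_exists (ρ := ρ) (x := P) (fun w => ∃ i, w = rc i) ⟨0, rfl⟩
    (by
      rintro _ _ ⟨i, rfl⟩ ⟨j, rfl⟩
      exact ⟨i + j, (List.replicate_add ..).symm⟩)
    (fun Z hZ => by
      obtain ⟨i, hi⟩ := h Z hZ
      exact ⟨_, hi, i, rfl⟩)
  exact ⟨i, hw⟩

/-- the start word and all words occurring in tables -/
def Wds (G : TSys (Fin 3) N) : Set (List (AA N)) :=
  {w | w = G.start ∨ ∃ h ∈ G.tables, ∃ c, w ∈ h c}

theorem wds_finite [Finite N] : (Wds G).Finite := by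
  have h1 : Wds G ⊆ {G.start} ∪ ⋃ h ∈ G.tables, ⋃ c, h c := by
    rintro w (rfl | ⟨h, hh, c, hw⟩)
    · exact Or.inl rfl
    · right
      simp only [Set.mem_iUnion]
      exact ⟨h, hh, c, hw⟩
  refine Set.Finite.subset ?_ h1
  refine (Set.finite_singleton _).union ?_
  refine G.tables_finite.biUnion ?_
  intro h hh
  exact Set.finite_iUnion fun c => G.image_finite h hh c

theorem splits_finite [Finite N] :
    {v : List (AA N) × List (AA N) | v.1 ++ v.2 ∈ Wds G}.Finite := by
  have h1 : {v : List (AA N) × List (AA N) | v.1 ++ v.2 ∈ Wds G} ⊆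
      ⋃ w ∈ Wds G, (fun i => (w.take i, w.drop i)) '' {i | i ≤ w.length} := by
    rintro ⟨l, r⟩ h
    simp only [Set.mem_iUnion]
    refine ⟨l ++ r, h, l.length, ?_, ?_⟩
    · show l.length ≤ (l ++ r).length
      simp
    · simp
  refine Set.Finite.subset ?_ h1
  refine wds_finite.biUnion ?_
  intro w _
  exact (Set.finite_le_nat _).image _

structure Dat (G : TSys (Fin 3) N) (n : ℕ) (P VL VR R : List (AA N)) (τ : List (Tb N))
    (p q j k : ℕ) : Prop where
  hV : VL ++ VR ∈ Wds G
  d : G.Der (P ++ (VL ++ (VR ++ R)))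
  t : ∀ h ∈ τ, h ∈ G.tables
  hP : ∀ Z ∈ P, ∃ i, Tm τ [Z] (ra i)
  hl : Tm τ VL (ra p ++ rb j)
  hr : Tm τ VR (rb k ++ rc q)
  hR : ∀ Z ∈ R, ∃ i, Tm τ [Z] (rc i)
  hn : j + k = n
  hj : 1 ≤ j
  hk : 1 ≤ k

theorem extract1 {n : ℕ} (hn : 2 ≤ n) (ρ : List (Tb N)) :
    ∀ P M R r p q t, G.Der (P ++ M :: R) → (∀ h ∈ ρ, h ∈ G.tables) → Tm ρ P (ra r) →
      Tm ρ [M] (ra p ++ (rb n ++ rc q)) → Tm ρ R (rc t) →
      ∃ P VL VR R τ p q j k, Dat G n P VL VR R τ p q j k := by
  induction ρ with
  | nil =>
    intro P M R r p q t _ _ _ hM _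
    exfalso
    have h1 : (ra p ++ (rb n ++ rc q)).map Sum.inl = [M] := hM
    have := congrArg List.length h1
    simp at this
    omega
  | cons h ρ ih =>
    intro P M R r p q t hd ht hP hM hR
    obtain ⟨P', hP1, hP2⟩ := tm_table.1 hP
    obtain ⟨V, hM1, hM2⟩ := tm_table.1 hM
    obtain ⟨R', hR1, hR2⟩ := tm_table.1 hR
    have hd' : G.Der (P' ++ (V ++ R')) := by
      refine Relation.ReflTransGen.tail hd ⟨h, ht h (by simp), ?_⟩
      have h1 : P ++ M :: R = P ++ ([M] ++ R) := rfl
      rw [h1]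
      exact rew_append hP1 (rew_append hM1 hR1)
    have hV : V ∈ Wds G := Or.inr ⟨h, ht h (by simp), M, rew_singleton_iff.1 hM1⟩
    rcases dichotomy (by omega) hM2 with ⟨xl, xr, j, k, rfl, ha, hb, hjk, hj, hk⟩ |
      ⟨P2, M2, R2, r', p', q', t', rfl, h3, h4, h5, h6, h7⟩
    · refine ⟨P', xl, xr, R', ρ, p, q, j, k, hV, ?_, fun h hh => ht h (by simp [hh]),
        letters_a hP2, ha, hb, letters_c hR2, hjk, hj, hk⟩
      simpa using hd'
    · refine ih (P' ++ P2) M2 (R2 ++ R') (r + r') p' q' (t' + t) ?_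
        (fun h hh => ht h (by simp [hh])) ?_ h4 ?_
      · simpa using hd'
      · refine tm_append.2 ⟨_, _, hP2, h3, ?_⟩
        exact List.replicate_add ..
      · refine tm_append.2 ⟨_, _, h5, hR2, ?_⟩
        exact List.replicate_add ..

theorem run_of_der {x : List (AA N)} (hx : G.Der x) :
    ∃ ρ : List (Tb N), (∀ h ∈ ρ, h ∈ G.tables) ∧ Run ρ G.start x := by
  unfold TSys.Der at hx
  have key : ∀ y, Relation.ReflTransGen G.Step y x →
      ∃ ρ : List (Tb N), (∀ h ∈ ρ, h ∈ G.tables) ∧ Run ρ y x := by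
    intro y hy
    induction hy using Relation.ReflTransGen.head_induction_on with
    | refl => exact ⟨[], by simp, rfl⟩
    | head hs _ ih =>
      obtain ⟨h, hh, hr⟩ := hs
      obtain ⟨ρ, h1, h2⟩ := ih
      refine ⟨h :: ρ, ?_, _, hr, h2⟩
      intro h' hh'
      rcases List.mem_cons.1 hh' with rfl | hh'
      · exact hh
      · exact h1 h' hh'
  exact key _ hx

theorem extract {n : ℕ} (hn : 2 ≤ n) (hL : G.language = {w | ∃ n, w = abc n}) :
    ∃ P VL VR R τ p q j k, Dat G n P VL VR R τ p q j k := by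
  have h1 : abc n ∈ G.language := by rw [hL]; exact ⟨n, rfl⟩
  obtain ⟨ρ, ht, hr⟩ := run_of_der (G := G) h1
  have h2 : Tm ρ G.start (ra n ++ (rb n ++ rc n)) := hr
  rcases dichotomy (by omega) h2 with ⟨xl, xr, j, k, hx, ha, hb, hjk, hj, hk⟩ |
    ⟨P2, M2, R2, r', p', q', t', hx, h3, h4, h5, h6, h7⟩
  · refine ⟨[], xl, xr, [], ρ, n, n, j, k, ?_, ?_, ht, by simp, ha, hb, by simp, hjk, hj, hk⟩
    · rw [← hx]; exact Or.inl rfl
    · simp only [List.nil_append, List.append_nil]
      rw [← hx]; exact Relation.ReflTransGen.refl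
  · refine extract1 hn ρ P2 M2 R2 r' p' q' t' ?_ ht h3 h4 h5
    rw [← hx]; exact Relation.ReflTransGen.refl

theorem not_one [Finite N] (hL : G.language = {w | ∃ n, w = abc n})
    (hO : ∀ h ∈ G.tables, ∃ V, Only h V) : False := by
  have h1 : ∀ n : {n : ℕ // 2 ≤ n}, ∃ P VL VR R τ p q j k, Dat G n P VL VR R τ p q j k :=
    fun n => extract n.2 hL
  choose P VL VR R τ p q j k hdat using h1
  have : Infinite {n : ℕ // 2 ≤ n} := (Set.infinite_of_not_bddAbove (by
    rintro ⟨b, hb⟩
    have := hb (show (b + 2 : ℕ) ∈ {n : ℕ | 2 ≤ n} from Nat.le_add_left _ _)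
    omega)).to_subtype
  have : Finite {v : List (AA N) × List (AA N) // v.1 ++ v.2 ∈ Wds G} :=
    (splits_finite (G := G)).to_subtype
  obtain ⟨⟨v, SP, SR⟩, hfib⟩ := Finite.exists_infinite_fiber
    (fun n : {n : ℕ // 2 ≤ n} =>
      ((⟨(VL n, VR n), (hdat n).hV⟩ :
        {v : List (AA N) × List (AA N) // v.1 ++ v.2 ∈ Wds G}),
        ({Z | Z ∈ P n} : Set (AA N)), ({Z | Z ∈ R n} : Set (AA N))))
  obtain ⟨n0⟩ := hfib.nonempty
  obtain ⟨n0, hn0⟩ := n0
  have key : ∀ n : {n : ℕ // 2 ≤ n}, ((⟨(VL n, VR n), (hdat n).hV⟩ :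
        {v : List (AA N) × List (AA N) // v.1 ++ v.2 ∈ Wds G}),
        ({Z | Z ∈ P n} : Set (AA N)), ({Z | Z ∈ R n} : Set (AA N))) = (v, SP, SR) →
        VL n = v.1.1 ∧ VR n = v.1.2 ∧ (∀ Z, Z ∈ P n ↔ Z ∈ SP) ∧ (∀ Z, Z ∈ R n ↔ Z ∈ SR) := by
    intro n hn
    simp only [Prod.mk.injEq] at hn
    obtain ⟨h1, h2, h3⟩ := hn
    refine ⟨?_, ?_, ?_, ?_⟩
    · rw [← h1]
    · rw [← h1]
    · intro Z; rw [← h2]; rfl
    · intro Z; rw [← h3]; rfl
  have hn0' := key n0 hn0
  refine no_infinite hL hO (P n0 ++ VL n0) (VR n0 ++ R n0)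
    (Subtype.val '' ((fun n : {n : ℕ // 2 ≤ n} =>
      ((⟨(VL n, VR n), (hdat n).hV⟩ :
        {v : List (AA N) × List (AA N) // v.1 ++ v.2 ∈ Wds G}),
        ({Z | Z ∈ P n} : Set (AA N)), ({Z | Z ∈ R n} : Set (AA N)))) ⁻¹' {(v, SP, SR)})) ?_ ?_
  · refine Set.Infinite.image (Subtype.val_injective.injOn) ?_
    exact Set.infinite_coe_iff.1 hfib
  · rintro _ ⟨n, hn, rfl⟩
    have hn' := key n hn
    have hD := hdat n
    have e1 : VL n = VL n0 := by rw [hn'.1, hn0'.1]
    have e2 : VR n = VR n0 := by rw [hn'.2.1, hn0'.2.1]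
    have e3 : ∀ Z, Z ∈ P n0 → Z ∈ P n := fun Z hZ => (hn'.2.2.1 Z).2 ((hn0'.2.2.1 Z).1 hZ)
    have e4 : ∀ Z, Z ∈ R n0 → Z ∈ R n := fun Z hZ => (hn'.2.2.2 Z).2 ((hn0'.2.2.2 Z).1 hZ)
    obtain ⟨i, hi⟩ := word_a (ρ := τ n) (P := P n0) (fun Z hZ => hD.hP Z (e3 Z hZ))
    obtain ⟨i', hi'⟩ := word_c (ρ := τ n) (P := R n0) (fun Z hZ => hD.hR Z (e4 Z hZ))
    have hl := hD.hl
    have hr := hD.hr
    rw [e1] at hl
    rw [e2] at hr
    have hl' : Tm (τ n) (P n0 ++ VL n0) (ra (i + p n) ++ rb (j n)) := by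
      refine tm_append.2 ⟨_, _, hi, hl, ?_⟩
      rw [← List.append_assoc]
      congr 1
      exact List.replicate_add ..
    have hr' : Tm (τ n) (VR n0 ++ R n0) (rb (k n) ++ rc (q n + i')) := by
      refine tm_append.2 ⟨_, _, hr, hi', ?_⟩
      rw [List.append_assoc]
      congr 1
      exact List.replicate_add ..
    have hd : G.Der ((P n0 ++ VL n0) ++ (VR n0 ++ R n0)) := by
      have := (hdat n0).d
      simpa using this
    obtain ⟨m, hm⟩ := tm_lang hL hd hD.t (tm_append.2 ⟨_, _, hl', hr', rfl⟩)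
    obtain ⟨h3, h4, h5⟩ := shape_unique hD.hk hm
    have hmn : m = n := by rw [← h5]; exact hD.hn
    rw [h3, hmn] at hl'
    rw [h4, hmn] at hr'
    exact ⟨τ n, j n, k n, hD.hn, hD.hj, hD.hk, hl', hr', hd, hD.t⟩

end final
/-! ## The simulation by a 2-restricted system -/

/-- extra letters of the simulating system -/
inductive NL (A W : Type) : Type
  | u (c : A)
  | p (c : A)
  | Z (m : Option W)
  | X0 (c : A)
  | X (c : A) (v : W)
  | r0 (c : A)
  | r1 (c : A)
  | s (m : Option W)
  | bad

/-- index type of the tables of the simulating system -/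
inductive Ix (T A W H : Type) : Type
  | t1 (c : A)
  | t2 (c : A) (v : W)
  | t3 (c : A)
  | t3' (c : A) (v : W)
  | t4 (c : A)
  | t4' (c : A)
  | t5 (m : Option W)
  | t6 (v : W)
  | t7 (h : H)
  | t8

open NL Ix

instance finiteNL {A W : Type} [Finite A] [Finite W] : Finite (NL A W) := by
  let f : A ⊕ A ⊕ Option W ⊕ A ⊕ (A × W) ⊕ A ⊕ A ⊕ Option W ⊕ Unit → NL A W := fun x =>
    match x with
    | .inl c => u c
    | .inr (.inl c) => p c
    | .inr (.inr (.inl m)) => Z m
    | .inr (.inr (.inr (.inl c))) => X0 c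
    | .inr (.inr (.inr (.inr (.inl (c, v))))) => X c v
    | .inr (.inr (.inr (.inr (.inr (.inl c))))) => r0 c
    | .inr (.inr (.inr (.inr (.inr (.inr (.inl c)))))) => r1 c
    | .inr (.inr (.inr (.inr (.inr (.inr (.inr (.inl m))))))) => s m
    | .inr (.inr (.inr (.inr (.inr (.inr (.inr (.inr _))))))) => bad
  refine Finite.of_surjective f ?_
  intro b
  cases b with
  | u c => exact ⟨.inl c, rfl⟩
  | p c => exact ⟨.inr (.inl c), rfl⟩
  | Z m => exact ⟨.inr (.inr (.inl m)), rfl⟩
  | X0 c => exact ⟨.inr (.inr (.inr (.inl c))), rfl⟩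
  | X c v => exact ⟨.inr (.inr (.inr (.inr (.inl (c, v))))), rfl⟩
  | r0 c => exact ⟨.inr (.inr (.inr (.inr (.inr (.inl c))))), rfl⟩
  | r1 c => exact ⟨.inr (.inr (.inr (.inr (.inr (.inr (.inl c)))))), rfl⟩
  | s m => exact ⟨.inr (.inr (.inr (.inr (.inr (.inr (.inr (.inl m))))))), rfl⟩
  | bad => exact ⟨.inr (.inr (.inr (.inr (.inr (.inr (.inr (.inr ()))))))), rfl⟩

instance finiteIx {T A W H : Type} [Finite A] [Finite W] [Finite H] : Finite (Ix T A W H) := by
  let f : A ⊕ (A × W) ⊕ A ⊕ (A × W) ⊕ A ⊕ A ⊕ Option W ⊕ W ⊕ H ⊕ Unit → Ix T A W H := fun x =>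
    match x with
    | .inl c => t1 c
    | .inr (.inl (c, v)) => t2 c v
    | .inr (.inr (.inl c)) => t3 c
    | .inr (.inr (.inr (.inl (c, v)))) => t3' c v
    | .inr (.inr (.inr (.inr (.inl c)))) => t4 c
    | .inr (.inr (.inr (.inr (.inr (.inl c))))) => t4' c
    | .inr (.inr (.inr (.inr (.inr (.inr (.inl m)))))) => t5 m
    | .inr (.inr (.inr (.inr (.inr (.inr (.inr (.inl v))))))) => t6 v
    | .inr (.inr (.inr (.inr (.inr (.inr (.inr (.inr (.inl h)))))))) => t7 h
    | .inr (.inr (.inr (.inr (.inr (.inr (.inr (.inr (.inr _)))))))) => t8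
  refine Finite.of_surjective f ?_
  intro b
  cases b with
  | t1 c => exact ⟨.inl c, rfl⟩
  | t2 c v => exact ⟨.inr (.inl (c, v)), rfl⟩
  | t3 c => exact ⟨.inr (.inr (.inl c)), rfl⟩
  | t3' c v => exact ⟨.inr (.inr (.inr (.inl (c, v)))), rfl⟩
  | t4 c => exact ⟨.inr (.inr (.inr (.inr (.inl c)))), rfl⟩
  | t4' c => exact ⟨.inr (.inr (.inr (.inr (.inr (.inl c))))), rfl⟩
  | t5 m => exact ⟨.inr (.inr (.inr (.inr (.inr (.inr (.inl m)))))), rfl⟩
  | t6 v => exact ⟨.inr (.inr (.inr (.inr (.inr (.inr (.inr (.inl v))))))), rfl⟩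
  | t7 h => exact ⟨.inr (.inr (.inr (.inr (.inr (.inr (.inr (.inr (.inl h)))))))), rfl⟩
  | t8 => exact ⟨.inr (.inr (.inr (.inr (.inr (.inr (.inr (.inr (.inr ())))))))), rfl⟩

/-- a table rewriting the letter `a` by `S` and the letter `b` by the trap letter -/
noncomputable def tb {B : Type} (z a b : B) (S : Set (List B)) : B → Set (List B) :=
  open Classical in fun c => if c = a then S else if c = b then {[z]} else {[c]}

/-- a table rewriting only the letter `a` by `S` -/
noncomputable def one {B : Type} (a : B) (S : Set (List B)) : B → Set (List B) :=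
  open Classical in fun c => if c = a then S else {[c]}

/-- a list of all elements of a finite type -/
noncomputable def all (A : Type) [Finite A] : List A := (Set.finite_univ (α := A)).toFinset.toList

theorem mem_all {A : Type} [Finite A] (c : A) : c ∈ all A := by simp [all]

section sim
variable {T N : Type} [Finite T] [Finite N] (G : TSys T N)

abbrev WW : Type := Option G.tables
abbrev BB : Type := T ⊕ NL (T ⊕ N) (WW G)
abbrev II : Type := Ix T (T ⊕ N) (WW G) G.tables

instance : Finite G.tables := G.tables_finite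

/-- images of a primed letter -/
def out (v : WW G) (c : T ⊕ N) : Set (List (BB G)) :=
  match v, c with
  | some h, c => (List.map fun d => (Sum.inr (u d) : BB G)) '' (h.1 c)
  | none, .inl t => {[Sum.inl t]}
  | none, .inr n => {[Sum.inr (p (Sum.inr n))]}

noncomputable def L0 : List (BB G) :=
  (all (T ⊕ N)).flatMap fun c => [Sum.inr (X0 c), Sum.inr (r0 c)]

noncomputable def L1 : List (BB G) :=
  (all (T ⊕ N)).flatMap fun c =>
    Sum.inr (r1 c) :: (all (WW G)).map fun v => Sum.inr (X c v)

def act : II G → BB G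
  | t1 c => Sum.inr (u c)
  | t2 c _ => Sum.inr (p c)
  | t3 c => Sum.inr (X0 c)
  | t3' c v => Sum.inr (X c v)
  | t4 c => Sum.inr (r0 c)
  | t4' c => Sum.inr (r1 c)
  | t5 m => Sum.inr (s m)
  | t6 _ => Sum.inr (Z none)
  | t7 h => Sum.inr (Z (some (some h)))
  | t8 => Sum.inr (Z (some none))

def chk : II G → BB G
  | t1 c => Sum.inr (X0 c)
  | t2 c v => Sum.inr (X c v)
  | t3 c => Sum.inr (r0 c)
  | t3' c _ => Sum.inr (r1 c)
  | t4 c => Sum.inr (u c)
  | t4' c => Sum.inr (p c)
  | t5 m => Sum.inr (Z m)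
  | t6 _ => Sum.inr (s none)
  | t7 h => Sum.inr (s (some (some h)))
  | t8 => Sum.inr (s (some none))

noncomputable def img : II G → Set (List (BB G))
  | t1 c => {[Sum.inr (p c)]}
  | t2 c v => out G v c
  | t3 _ => {(all (WW G)).map fun v => Sum.inr (s (some v))}
  | t3' _ v => {((all (Option (WW G))).filter (open Classical in fun m => m ≠ some v)).map
      fun m => Sum.inr (s m)}
  | t4 _ => {[]}
  | t4' _ => {[]}
  | t5 _ => {[]}
  | t6 v => {Sum.inr (Z (some v)) :: L0 G}
  | t7 _ => {Sum.inr (Z none) :: L1 G}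
  | t8 => {L1 G}

noncomputable def tab (i : II G) : BB G → Set (List (BB G)) :=
  tb (Sum.inr bad) (act G i) (chk G i) (img G i)

theorem act_ne_chk (i : II G) : act G i ≠ chk G i := by
  cases i <;> simp [act, chk]

theorem act_ne_bad (i : II G) : act G i ≠ Sum.inr bad := by
  cases i <;> simp [act]

theorem chk_ne_bad (i : II G) : chk G i ≠ Sum.inr bad := by
  cases i <;> simp [chk]

theorem img_nonempty (i : II G) : (img G i).Nonempty := by
  cases i with
  | t2 c v =>
    rcases v with _ | h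
    · rcases c with t | n
      · exact ⟨_, rfl⟩
      · exact ⟨_, rfl⟩
    · exact (G.image_nonempty h.1 h.2 c).image _
  | _ => exact ⟨_, rfl⟩

theorem img_finite (i : II G) : (img G i).Finite := by
  cases i with
  | t2 c v =>
    rcases v with _ | h
    · rcases c with t | n
      · exact Set.finite_singleton _
      · exact Set.finite_singleton _
    · exact (G.image_finite h.1 h.2 c).image _
  | _ => exact Set.finite_singleton _

theorem tb_nonempty {B : Type} {z a b : B} {S : Set (List B)} (hS : S.Nonempty) (c : B) :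
    (tb z a b S c).Nonempty := by
  unfold tb
  split_ifs
  · exact hS
  · exact ⟨_, rfl⟩
  · exact ⟨_, rfl⟩

theorem tb_finite {B : Type} {z a b : B} {S : Set (List B)} (hS : S.Finite) (c : B) :
    (tb z a b S c).Finite := by
  unfold tb
  split_ifs
  · exact hS
  · exact Set.finite_singleton _
  · exact Set.finite_singleton _

theorem tb_restricted {B : Type} (z a b : B) (S : Set (List B)) :
    {c | tb z a b S c ≠ {[c]}}.ncard ≤ 2 := by
  have hsub : {c | tb z a b S c ≠ {[c]}} ⊆ {a, b} := by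
    intro c hc
    by_contra hn
    simp only [Set.mem_insert_iff, Set.mem_singleton_iff, not_or] at hn
    exact hc (by simp [tb, hn.1, hn.2])
  calc {c | tb z a b S c ≠ {[c]}}.ncard ≤ ({a, b} : Set B).ncard :=
        Set.ncard_le_ncard hsub (by simp)
    _ ≤ 2 := Set.ncard_insert_le a {b} |>.trans (by simp)

/-- the simulating 2-restricted system -/
noncomputable def sim : TSys T (NL (T ⊕ N) (WW G)) where
  tables := Set.range (tab G)
  tables_finite := Set.finite_range _
  tables_nonempty := ⟨_, ⟨t8, rfl⟩⟩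
  image_finite := by
    rintro _ ⟨i, rfl⟩ c
    exact tb_finite (img_finite G i) c
  image_nonempty := by
    rintro _ ⟨i, rfl⟩ c
    exact tb_nonempty (img_nonempty G i) c
  start := G.start.map (fun c => Sum.inr (u c)) ++ (Sum.inr (Z none) :: L1 G)
  start_ne_nil := by simp

theorem sim_restricted : (sim G).IsRestricted 2 := by
  rintro _ ⟨i, rfl⟩
  exact tb_restricted _ _ _ _

end sim

/-! ### Soundness -/

section sound
variable {B : Type} {z a b c : B} {S : Set (List B)} {y y' : List B}

theorem tb_keep (hr : Rew (tb z a b S) y y') (hc : c ∈ y) (h1 : c ≠ a) (h2 : c ≠ b) :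
    c ∈ y' := by
  obtain ⟨u, hu, hall⟩ := rew_mem_left hr hc
  have : u = [c] := by simpa [tb, h1, h2] using hu
  subst this
  exact hall c (by simp)

theorem tb_chk (hr : Rew (tb z a b S) y y') (hb : b ∈ y) (hab : a ≠ b) : z ∈ y' := by
  obtain ⟨u, hu, hall⟩ := rew_mem_left hr hb
  have : u = [z] := by simpa [tb, hab.symm] using hu
  subst this
  exact hall z (by simp)

theorem one_keep (hr : Rew (one a S) y y') (hc : c ∈ y) (h1 : c ≠ a) : c ∈ y' := by
  obtain ⟨u, hu, hall⟩ := rew_mem_left hr hc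
  have : u = [c] := by simpa [one, h1] using hu
  subst this
  exact hall c (by simp)

theorem one_from (hr : Rew (one a S) y y') (hc : c ∈ y') :
    (c ∈ y ∧ c ≠ a) ∨ (a ∈ y ∧ ∃ w ∈ S, c ∈ w) := by
  obtain ⟨d, hd, w, hw, hcw, -⟩ := rew_mem_right hr hc
  by_cases hda : d = a
  · subst hda
    right
    exact ⟨hd, w, by simpa [one] using hw, hcw⟩
  · left
    have : w = [d] := by simpa [one, hda] using hw
    subst this
    have : c = d := by simpa using hcw
    subst this
    exact ⟨hd, hda⟩

theorem one_new (hr : Rew (one a S) y y') (ha : a ∈ y) : ∃ w ∈ S, ∀ b ∈ w, b ∈ y' := by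
  obtain ⟨u, hu, hall⟩ := rew_mem_left hr ha
  exact ⟨u, by simpa [one] using hu, hall⟩

theorem one_id (hr : Rew (one a S) y y') (ha : a ∉ y) : y' = y := by
  refine rew_id_eq (g := one a S) ?_ hr
  intro c hc
  have : c ≠ a := fun h => ha (h ▸ hc)
  simp [one, this]

theorem tb_one (hr : Rew (tb z a b S) y y') (hb : b ∉ y) : Rew (one a S) y y' := by
  refine rew_mono ?_ hr
  intro c hc
  have : c ≠ b := fun h => hb (h ▸ hc)
  by_cases hca : c = a <;> simp [one, tb, this, hca]

theorem one_tb (hr : Rew (one a S) y y') (hb : b ∉ y) : Rew (tb z a b S) y y' := by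
  refine rew_mono ?_ hr
  intro c hc
  have : c ≠ b := fun h => hb (h ▸ hc)
  by_cases hca : c = a <;> simp [one, tb, this, hca]

end sound

section sim2
variable {T N : Type} [Finite T] [Finite N] (G : TSys T N)

def Dead (y : List (BB G)) : Prop :=
  ∃ K : Set (BB G), (∀ i, act G i ∈ K → chk G i ∈ K) ∧ (∀ b ∈ K, b ∈ y) ∧
    ∃ n, Sum.inr n ∈ K

theorem dead_bad {y : List (BB G)} (h : (Sum.inr bad : BB G) ∈ y) : Dead G y := by
  refine ⟨{Sum.inr bad}, ?_, ?_, ⟨bad, rfl⟩⟩
  · intro i hi
    exact absurd hi (act_ne_bad G i)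
  · intro b hb
    have : b = Sum.inr bad := hb
    rw [this]; exact h

theorem dead_step {y y' : List (BB G)} {i : II G} (hd : Dead G y) (hr : Rew (tab G i) y y') :
    Dead G y' := by
  obtain ⟨K, hK, hy, n, hn⟩ := hd
  by_cases hc : chk G i ∈ y
  · exact dead_bad G (tb_chk hr hc (act_ne_chk G i))
  · refine ⟨K, hK, ?_, n, hn⟩
    intro b hb
    have h1 : chk G i ∉ K := fun h => hc (hy _ h)
    have h2 : act G i ∉ K := fun h => h1 (hK i h)
    exact tb_keep hr (hy b hb) (fun h => h2 (h ▸ hb)) (fun h => h1 (h ▸ hb))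

theorem dead_terminal {w : List T} (hd : Dead G (w.map Sum.inl)) : False := by
  obtain ⟨K, -, hy, n, hn⟩ := hd
  have := hy _ hn
  simp at this

theorem dead_s {y : List (BB G)} (m : Option (WW G)) (h1 : (Sum.inr (s m) : BB G) ∈ y)
    (h2 : (Sum.inr (Z m) : BB G) ∈ y) : Dead G y := by
  refine ⟨{Sum.inr (s m), Sum.inr (Z m)}, ?_, ?_, ⟨s m, by simp⟩⟩
  · intro i hi
    cases i <;> simp_all [act, chk]
  · rintro b (rfl | rfl)
    · exact h1
    · exact h2

theorem dead_u {y : List (BB G)} (c : T ⊕ N) (h1 : (Sum.inr (u c) : BB G) ∈ y)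
    (h2 : (Sum.inr (X0 c) : BB G) ∈ y) (h3 : (Sum.inr (r0 c) : BB G) ∈ y) : Dead G y := by
  refine ⟨{Sum.inr (u c), Sum.inr (X0 c), Sum.inr (r0 c)}, ?_, ?_, ⟨u c, by simp⟩⟩
  · intro i hi
    cases i <;> simp_all [act, chk]
  · rintro b (rfl | rfl | rfl)
    · exact h1
    · exact h2
    · exact h3

theorem dead_p {y : List (BB G)} (c : T ⊕ N) (h1 : (Sum.inr (p c) : BB G) ∈ y)
    (h2 : (Sum.inr (r1 c) : BB G) ∈ y) (h3 : ∀ v, (Sum.inr (X c v) : BB G) ∈ y) :
    Dead G y := by
  refine ⟨{b | b = Sum.inr (p c) ∨ b = Sum.inr (r1 c) ∨ ∃ v, b = Sum.inr (X c v)}, ?_, ?_,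
    ⟨p c, by simp⟩⟩
  · intro i hi
    cases i <;> simp_all [act, chk]
  · rintro b (rfl | rfl | ⟨v, rfl⟩)
    · exact h1
    · exact h2
    · exact h3 v

/-- the work part of a word -/
def isW : BB G → Bool
  | .inl _ => true
  | .inr (u _) => true
  | .inr (p _) => true
  | _ => false

def wk (y : List (BB G)) : List (BB G) := y.filter (isW G)

def F0 (c : T ⊕ N) : Set (List (BB G)) := {[Sum.inr (u c)], [Sum.inr (p c)]}

def Fv (v : WW G) (c : T ⊕ N) : Set (List (BB G)) := insert [Sum.inr (p c)] (out G v c)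

theorem wk_append (x y : List (BB G)) : wk G (x ++ y) = wk G x ++ wk G y := by
  simp [wk]

theorem wk_cons_true {c : BB G} (h : isW G c = true) (x : List (BB G)) :
    wk G (c :: x) = c :: wk G x := by
  simp [wk, h]

theorem wk_cons_false {c : BB G} (h : isW G c = false) (x : List (BB G)) :
    wk G (c :: x) = wk G x := by
  simp [wk, h]

theorem wk_control {a : BB G} {S : Set (List (BB G))} {y y' : List (BB G)}
    (ha : isW G a = false) (hS : ∀ w ∈ S, ∀ b ∈ w, isW G b = false)
    (hr : Rew (one a S) y y') : wk G y' = wk G y := by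
  induction hr with
  | nil => rfl
  | @cons c w x z hw _ ih =>
    rw [wk_append, ih]
    by_cases hc : c = a
    · subst hc
      have hw' : w ∈ S := by simpa [one] using hw
      have : wk G w = [] := by
        rw [wk, List.filter_eq_nil_iff]
        intro b hb
        rw [hS w hw' b hb]; simp
      rw [this, wk_cons_false G ha]
      simp
    · have hw' : w = [c] := by simpa [one, hc] using hw
      subst hw'
      rw [← wk_append]
      rfl

theorem wk_work {a : BB G} {S : Set (List (BB G))} {y y' : List (BB G)}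
    (ha : isW G a = true) (hS : ∀ w ∈ S, ∀ b ∈ w, isW G b = true)
    (hr : Rew (one a S) y y') : Rew (one a S) (wk G y) (wk G y') := by
  induction hr with
  | nil => exact Rew.nil
  | @cons c w x z hw _ ih =>
    rw [wk_append]
    by_cases hc : c = a
    · subst hc
      have hw' : w ∈ S := by simpa [one] using hw
      have : wk G w = w := by
        rw [wk, List.filter_eq_self]
        intro b hb
        exact hS w hw' b hb
      rw [this, wk_cons_true G ha]
      exact Rew.cons hw ih
    · have hw' : w = [c] := by simpa [one, hc] using hw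
      subst hw'
      cases hcw : isW G c with
      | true =>
        rw [wk_cons_true G hcw, wk_cons_true G hcw]
        exact Rew.cons hw ih
      | false =>
        rw [wk_cons_false G hcw, wk_cons_false G hcw]
        exact ih

theorem mem_wk {b : BB G} {y : List (BB G)} : b ∈ wk G y ↔ b ∈ y ∧ isW G b = true := by
  simp [wk]

structure Inv0 (y : List (BB G)) : Prop where
  z : ∀ m, (Sum.inr (Z m) : BB G) ∈ y ↔ m = none
  x : ∀ c v, (Sum.inr (X c v) : BB G) ∈ y
  w : ∃ x, G.Der x ∧ Rew (F0 G) x (wk G y)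

structure InvV (v : WW G) (y : List (BB G)) : Prop where
  z : ∀ m, (Sum.inr (Z m) : BB G) ∈ y ↔ m = some v
  x0 : ∀ c, (Sum.inr (X0 c) : BB G) ∈ y
  x : ∀ c v', v' ≠ v → (Sum.inr (X c v') : BB G) ∈ y
  w : ∃ x, G.Der x ∧ Rew (Fv G v) x (wk G y)

structure InvE (y : List (BB G)) : Prop where
  z : ∀ m, (Sum.inr (Z m) : BB G) ∉ y
  u : ∀ c, (Sum.inr (u c) : BB G) ∉ y
  p : ∀ c, (Sum.inr (p c) : BB G) ∉ y
  w : ∃ w, w ∈ G.language ∧ wk G y = w.map Sum.inl

def Good (y : List (BB G)) : Prop := Dead G y ∨ Inv0 G y ∨ (∃ v, InvV G v y) ∨ InvE G y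

end sim2

section sim3
variable {T N : Type} [Finite T] [Finite N] (G : TSys T N)

/-- tables that do not touch the control letters `Z` -/
def noZ : II G → Prop
  | t6 _ => False
  | t7 _ => False
  | t8 => False
  | _ => True

theorem out_work {v : WW G} {c : T ⊕ N} {w : List (BB G)} (hw : w ∈ out G v c) :
    ∀ b ∈ w, isW G b = true := by
  intro b hb
  rcases v with _ | h
  · rcases c with t | n
    · have : w = [Sum.inl t] := hw
      subst this
      have : b = Sum.inl t := by simpa using hb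
      subst this; rfl
    · have : w = [Sum.inr (p (Sum.inr n))] := hw
      subst this
      have : b = Sum.inr (p (Sum.inr n)) := by simpa using hb
      subst this; rfl
  · obtain ⟨w0, -, rfl⟩ := hw
    obtain ⟨d, -, rfl⟩ := List.mem_map.1 hb
    rfl

theorem z_same {i : II G} (hi : noZ G i) {y y' : List (BB G)}
    (hr : Rew (one (act G i) (img G i)) y y') (m : Option (WW G)) :
    (Sum.inr (Z m) : BB G) ∈ y' ↔ (Sum.inr (Z m) : BB G) ∈ y := by
  have hact : (Sum.inr (Z m) : BB G) ≠ act G i := by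
    cases i <;> simp_all [act, noZ]
  constructor
  · intro h
    rcases one_from hr h with ⟨h1, -⟩ | ⟨-, w, hw, hz⟩
    · exact h1
    · exfalso
      cases i with
      | t1 c =>
        have : w = [Sum.inr (p c)] := hw
        subst this; simp at hz
      | t2 c v =>
        have := out_work G hw _ hz
        simp [isW] at this
      | t3 c =>
        have : w = _ := hw
        subst this; simp at hz
      | t3' c v =>
        have : w = _ := hw
        subst this; simp at hz
      | t4 c =>
        have : w = _ := hw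
        subst this; simp at hz
      | t4' c =>
        have : w = _ := hw
        subst this; simp at hz
      | t5 m =>
        have : w = _ := hw
        subst this; simp at hz
      | t6 v => exact hi
      | t7 h => exact hi
      | t8 => exact hi
  · intro h
    exact one_keep hr h hact

/-- the tables that act on control letters only -/
def isC : II G → Prop
  | t1 _ => False
  | t2 _ _ => False
  | _ => True

theorem mem_L0 {b : BB G} : b ∈ L0 G ↔ ∃ c, b = Sum.inr (X0 c) ∨ b = Sum.inr (r0 c) := by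
  simp [L0, mem_all]

theorem mem_L1 {b : BB G} :
    b ∈ L1 G ↔ ∃ c, b = Sum.inr (r1 c) ∨ ∃ v, b = Sum.inr (X c v) := by
  simp [L1, mem_all, eq_comm]

theorem wk_same {i : II G} (hi : isC G i) {y y' : List (BB G)}
    (hr : Rew (one (act G i) (img G i)) y y') : wk G y' = wk G y := by
  refine wk_control G ?_ ?_ hr
  · cases i <;> simp_all [act, isC, isW]
  · intro w hw b hb
    cases i with
    | t1 c => exact absurd hi id
    | t2 c v => exact absurd hi id
    | t3 c =>
      have : w = _ := hw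
      subst this
      obtain ⟨v, -, rfl⟩ := List.mem_map.1 hb
      rfl
    | t3' c v =>
      have : w = _ := hw
      subst this
      obtain ⟨v, -, rfl⟩ := List.mem_map.1 hb
      rfl
    | t4 c =>
      have : w = _ := hw
      subst this; simp at hb
    | t4' c =>
      have : w = _ := hw
      subst this; simp at hb
    | t5 m =>
      have : w = _ := hw
      subst this; simp at hb
    | t6 v =>
      have : w = _ := hw
      subst this
      rcases List.mem_cons.1 hb with rfl | hb
      · rfl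
      · obtain ⟨c, rfl | rfl⟩ := (mem_L0 G).1 hb <;> rfl
    | t7 h =>
      have : w = _ := hw
      subst this
      rcases List.mem_cons.1 hb with rfl | hb
      · rfl
      · obtain ⟨c, rfl | ⟨v, rfl⟩⟩ := (mem_L1 G).1 hb <;> rfl
    | t8 =>
      have : w = _ := hw
      subst this
      obtain ⟨c, rfl | ⟨v, rfl⟩⟩ := (mem_L1 G).1 hb <;> rfl

theorem out_no_p_some {h : G.tables} {c d : T ⊕ N} {w : List (BB G)}
    (hw : w ∈ out G (some h) c) : (Sum.inr (p d) : BB G) ∉ w := by
  obtain ⟨w0, -, rfl⟩ := hw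
  simp

theorem good_inv0 {y y' : List (BB G)} {i : II G} (hI : Inv0 G y)
    (hchk : chk G i ∉ y) (hact : act G i ∈ y)
    (hr : Rew (one (act G i) (img G i)) y y') : Good G y' := by
  have hbasic : noZ G i → isC G i → (∀ c v, act G i ≠ Sum.inr (X c v)) → Good G y' := by
    intro h1 h2 h3
    refine Or.inr (Or.inl ⟨?_, ?_, ?_⟩)
    · intro m
      rw [z_same G h1 hr, hI.z]
    · intro c v
      exact one_keep hr (hI.x c v) (h3 c v).symm
    · rw [wk_same G h2 hr]
      exact hI.w
  cases i with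
  | t1 c =>
    refine Or.inr (Or.inl ⟨?_, ?_, ?_⟩)
    · intro m
      rw [z_same G (by trivial) hr, hI.z]
    · intro c' v
      exact one_keep hr (hI.x c' v) (by simp [act])
    · obtain ⟨x, hx, hw⟩ := hI.w
      refine ⟨x, hx, ?_⟩
      have hwk : Rew (one (act G (t1 c)) (img G (t1 c))) (wk G y) (wk G y') := by
        refine wk_work G rfl ?_ hr
        intro w hw b hb
        have : w = [Sum.inr (p c)] := hw
        subst this
        have : b = Sum.inr (p c) := by simpa using hb
        subst this; rfl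
      refine rew_closure ?_ hw hwk
      intro d _ w hwd w' hw'
      rcases hwd with hwd | hwd
      · have hwd' : w = [Sum.inr (u d)] := hwd
        subst hwd'
        rw [rew_singleton_iff] at hw'
        by_cases hcd : d = c
        · subst hcd
          have : w' = [Sum.inr (p d)] := by simpa [one, act, img] using hw'
          rw [this]; exact Or.inr rfl
        · have : w' = [Sum.inr (u d)] := by simpa [one, act, hcd] using hw'
          rw [this]; exact Or.inl rfl
      · have hwd' : w = [Sum.inr (p d)] := hwd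
        subst hwd'
        rw [rew_singleton_iff] at hw'
        have : w' = [Sum.inr (p d)] := by simpa [one, act] using hw'
        rw [this]; exact Or.inr rfl
  | t2 c v => exact absurd (hI.x c v) hchk
  | t3 c => exact hbasic trivial trivial (by simp [act])
  | t3' c v =>
    obtain ⟨w, hw, hall⟩ := one_new hr hact
    have hw' : w = _ := hw
    refine Or.inl (dead_s G none ?_ ?_)
    · refine hall _ ?_
      rw [hw']
      simp [mem_all]
    · exact one_keep hr ((hI.z none).2 rfl) (by simp [act])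
  | t4 c => exact hbasic trivial trivial (by simp [act])
  | t4' c => exact hbasic trivial trivial (by simp [act])
  | t5 m => exact hbasic trivial trivial (by simp [act])
  | t6 v =>
    obtain ⟨w, hw, hall⟩ := one_new hr hact
    have hw' : w = Sum.inr (Z (some v)) :: L0 G := hw
    subst hw'
    by_cases hdead : ∃ c, (Sum.inr (u c) : BB G) ∈ y'
    · obtain ⟨c, hc⟩ := hdead
      exact Or.inl (dead_u G c hc (hall _ (by simp [mem_L0])) (hall _ (by simp [mem_L0])))
    · push Not at hdead
      refine Or.inr (Or.inr (Or.inl ⟨v, ?_, ?_, ?_, ?_⟩))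
      · intro m
        constructor
        · intro hm
          rcases one_from hr hm with ⟨h1, h2⟩ | ⟨-, w, hw, hz⟩
          · rw [hI.z] at h1
            subst h1
            exact absurd rfl h2
          · have hw' : w = Sum.inr (Z (some v)) :: L0 G := hw
            subst hw'
            simpa [mem_L0] using hz
        · rintro rfl
          exact hall _ (by simp)
      · intro c
        exact hall _ (by simp [mem_L0])
      · intro c v' _
        exact one_keep hr (hI.x c v') (by simp [act])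
      · rw [wk_same G (i := t6 v) trivial hr]
        obtain ⟨x, hx, hw⟩ := hI.w
        refine ⟨x, hx, ?_⟩
        have := rew_restrict (fun b => ∀ c, b ≠ Sum.inr (u c)) hw ?_
        · refine rew_mono ?_ this
          rintro c _ w ⟨hw1, hw2⟩
          rcases hw1 with hw1 | hw1
          · have hw1' : w = [Sum.inr (u c)] := hw1
            subst hw1'
            exact absurd rfl (hw2 _ (by simp) c)
          · exact Or.inl hw1
        · intro b hb c hbc
          subst hbc
          rw [← wk_same G (i := t6 v) trivial hr, mem_wk] at hb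
          exact hdead c hb.1
  | t7 h =>
    have := (hI.z _).1 hact
    simp at this
  | t8 =>
    have := (hI.z _).1 hact
    simp at this

theorem good_invV {y y' : List (BB G)} {i : II G} {v : WW G} (hI : InvV G v y)
    (hchk : chk G i ∉ y) (hact : act G i ∈ y)
    (hr : Rew (one (act G i) (img G i)) y y') : Good G y' := by
  have hbasic : noZ G i → isC G i → (∀ c, act G i ≠ Sum.inr (X0 c)) →
      (∀ c v', v' ≠ v → act G i ≠ Sum.inr (X c v')) → Good G y' := by
    intro h1 h2 h3 h4
    refine Or.inr (Or.inr (Or.inl ⟨v, ?_, ?_, ?_, ?_⟩))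
    · intro m
      rw [z_same G h1 hr, hI.z]
    · intro c
      exact one_keep hr (hI.x0 c) (h3 c).symm
    · intro c v' hv'
      exact one_keep hr (hI.x c v' hv') (h4 c v' hv').symm
    · rw [wk_same G h2 hr]
      exact hI.w
  cases i with
  | t1 c => exact absurd (hI.x0 c) hchk
  | t2 c v' =>
    by_cases hv : v' = v
    · subst hv
      refine Or.inr (Or.inr (Or.inl ⟨v', ?_, ?_, ?_, ?_⟩))
      · intro m
        rw [z_same G (by trivial) hr, hI.z]
      · intro c'
        exact one_keep hr (hI.x0 c') (by simp [act])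
      · intro c' v'' hv''
        exact one_keep hr (hI.x c' v'' hv'') (by simp [act])
      · obtain ⟨x, hx, hw⟩ := hI.w
        refine ⟨x, hx, ?_⟩
        have hwk : Rew (one (act G (t2 c v')) (img G (t2 c v'))) (wk G y) (wk G y') := by
          refine wk_work G rfl ?_ hr
          intro w hw
          exact out_work G hw
        refine rew_closure ?_ hw hwk
        intro d _ w hwd w' hw'
        rcases hwd with hwd | hwd
        · have hwd' : w = [Sum.inr (p d)] := hwd
          subst hwd'
          rw [rew_singleton_iff] at hw'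
          by_cases hcd : d = c
          · subst hcd
            exact Or.inr (by simpa [one, act, img] using hw')
          · have : w' = [Sum.inr (p d)] := by simpa [one, act, hcd] using hw'
            rw [this]; exact Or.inl rfl
        · rcases v' with _ | h
          · rcases d with t | n
            · have hwd' : w = [Sum.inl t] := hwd
              subst hwd'
              rw [rew_singleton_iff] at hw'
              have : w' = [Sum.inl t] := by simpa [one, act] using hw'
              rw [this]; exact Or.inr rfl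
            · have hwd' : w = [Sum.inr (p (Sum.inr n))] := hwd
              subst hwd'
              rw [rew_singleton_iff] at hw'
              by_cases hcd : (Sum.inr n : T ⊕ N) = c
              · subst hcd
                exact Or.inr (by simpa [one, act, img] using hw')
              · have : w' = [Sum.inr (p (Sum.inr n))] := by simpa [one, act, hcd] using hw'
                rw [this]; exact Or.inl rfl
          · have : w' = w := one_id hw' (out_no_p_some G hwd)
            rw [this]; exact Or.inr hwd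
    · exact absurd (hI.x c v' hv) hchk
  | t3 c =>
    obtain ⟨w, hw, hall⟩ := one_new hr hact
    have hw' : w = _ := hw
    refine Or.inl (dead_s G (some v) ?_ ?_)
    · refine hall _ ?_
      rw [hw']
      simp [mem_all]
    · exact one_keep hr ((hI.z (some v)).2 rfl) (by simp [act])
  | t3' c v' =>
    by_cases hv : v' = v
    · subst hv
      refine hbasic trivial trivial (by simp [act]) ?_
      intro c' v'' hv'' heq
      simp [act] at heq
      exact hv'' heq.2.symm
    · obtain ⟨w, hw, hall⟩ := one_new hr hact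
      have hw' : w = _ := hw
      refine Or.inl (dead_s G (some v) ?_ ?_)
      · refine hall _ ?_
        rw [hw']
        simp only [List.mem_map, List.mem_filter]
        exact ⟨some v, ⟨mem_all _, by simp [Ne.symm hv]⟩, rfl⟩
      · exact one_keep hr ((hI.z (some v)).2 rfl) (by simp [act])
  | t4 c => exact hbasic trivial trivial (by simp [act]) (by simp [act])
  | t4' c => exact hbasic trivial trivial (by simp [act]) (by simp [act])
  | t5 m => exact hbasic trivial trivial (by simp [act]) (by simp [act])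
  | t6 v' =>
    have := (hI.z _).1 hact
    simp at this
  | t7 h =>
    have hv := (hI.z _).1 hact
    have hv' : some h = v := by simpa using hv
    subst hv'
    obtain ⟨w, hw, hall⟩ := one_new hr hact
    have hw' : w = Sum.inr (Z none) :: L1 G := hw
    subst hw'
    by_cases hdead : ∃ c, (Sum.inr (p c) : BB G) ∈ y'
    · obtain ⟨c, hc⟩ := hdead
      exact Or.inl (dead_p G c hc (hall _ (by simp [mem_L1]))
        (fun v => hall _ (by simp [mem_L1])))
    · push Not at hdead
      refine Or.inr (Or.inl ⟨?_, ?_, ?_⟩)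
      · intro m
        constructor
        · intro hm
          rcases one_from hr hm with ⟨h1, h2⟩ | ⟨-, w, hw, hz⟩
          · rw [hI.z] at h1
            subst h1
            exact absurd rfl h2
          · have hw' : w = Sum.inr (Z none) :: L1 G := hw
            subst hw'
            simpa [mem_L1] using hz
        · rintro rfl
          exact hall _ (by simp)
      · intro c v
        exact hall _ (by simp [mem_L1])
      · rw [wk_same G (i := t7 h) trivial hr]
        obtain ⟨x, hx, hw⟩ := hI.w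
        have h1 := rew_restrict (fun b => ∀ c, b ≠ Sum.inr (p c)) hw ?_
        · have h2 : Rew (out G (some h)) x (wk G y) := by
            refine rew_mono ?_ h1
            rintro c _ w ⟨hw1, hw2⟩
            rcases hw1 with hw1 | hw1
            · have hw1' : w = [Sum.inr (p c)] := hw1
              subst hw1'
              exact absurd rfl (hw2 _ (by simp) c)
            · exact hw1
          have h3 : ∃ x', Rew h.1 x x' ∧
              Rew (fun d => {[(Sum.inr (u d) : BB G)]}) x' (wk G y) := by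
            refine rew_decomp ?_ h2
            intro c _ w' hw'
            obtain ⟨w0, hw0, rfl⟩ := hw'
            exact ⟨w0, hw0, rew_map_self _ (by simp)⟩
          obtain ⟨x', hx', hx''⟩ := h3
          refine ⟨x', hx.tail ⟨h.1, h.2, hx'⟩, ?_⟩
          refine rew_mono ?_ hx''
          intro c _ w hw
          exact Or.inl hw
        · intro b hb c hbc
          subst hbc
          rw [← wk_same G (i := t7 h) trivial hr, mem_wk] at hb
          exact hdead c hb.1
  | t8 =>
    have hv := (hI.z _).1 hact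
    have hv' : none = v := by simpa using hv
    subst hv'
    obtain ⟨w, hw, hall⟩ := one_new hr hact
    have hw' : w = L1 G := hw
    subst hw'
    by_cases hdead : ∃ c, (Sum.inr (p c) : BB G) ∈ y'
    · obtain ⟨c, hc⟩ := hdead
      exact Or.inl (dead_p G c hc (hall _ (by simp [mem_L1]))
        (fun v => hall _ (by simp [mem_L1])))
    · push Not at hdead
      obtain ⟨x, hx, hw⟩ := hI.w
      have h1 := rew_restrict (fun b => ∀ c, b ≠ Sum.inr (p c)) hw ?_
      · have h4 : ∃ w : List T, x = w.map Sum.inl ∧ wk G y = w.map Sum.inl := by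
          clear hw hx
          generalize wk G y = zz at h1
          induction h1 with
          | nil => exact ⟨[], rfl, rfl⟩
          | @cons c w1 x z hw1 _ ih =>
            obtain ⟨w0, hw0, hw0'⟩ := ih
            obtain ⟨hw2, hw3⟩ := hw1
            rcases hw2 with hw2 | hw2
            · have hw2' : w1 = [Sum.inr (p c)] := hw2
              subst hw2'
              exact absurd rfl (hw3 _ (by simp) c)
            · rcases c with t | n
              · have hw2' : w1 = [Sum.inl t] := hw2
                subst hw2'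
                exact ⟨t :: w0, by simp [hw0], by simp [hw0']⟩
              · have hw2' : w1 = [Sum.inr (p (Sum.inr n))] := hw2
                subst hw2'
                exact absurd rfl (hw3 _ (by simp) (Sum.inr n))
        obtain ⟨w0, hw0, hw0'⟩ := h4
        have hu : ∀ c, (Sum.inr (u c) : BB G) ∉ y' := by
          intro c hc
          have : (Sum.inr (u c) : BB G) ∈ wk G y' := (mem_wk G).2 ⟨hc, rfl⟩
          rw [wk_same G (i := t8) trivial hr, hw0'] at this
          simp at this
        refine Or.inr (Or.inr (Or.inr ⟨?_, hu, hdead, ?_⟩))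
        · intro m hm
          rcases one_from hr hm with ⟨h1, h2⟩ | ⟨-, w, hw, hz⟩
          · rw [hI.z] at h1
            subst h1
            exact absurd rfl h2
          · have hw' : w = L1 G := hw
            subst hw'
            simp [mem_L1] at hz
        · refine ⟨w0, ?_, ?_⟩
          · show G.Der (w0.map Sum.inl)
            rw [← hw0]; exact hx
          · rw [wk_same G (i := t8) trivial hr, hw0']
      · intro b hb c hbc
        subst hbc
        rw [← wk_same G (i := t8) trivial hr, mem_wk] at hb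
        exact hdead c hb.1

end sim3

section sim4
variable {T N : Type} [Finite T] [Finite N] (G : TSys T N)

theorem good_invE {y y' : List (BB G)} {i : II G} (hI : InvE G y)
    (hact : act G i ∈ y)
    (hr : Rew (one (act G i) (img G i)) y y') : Good G y' := by
  have hbasic : noZ G i → isC G i → Good G y' := by
    intro h1 h2
    have hwk := wk_same G h2 hr
    refine Or.inr (Or.inr (Or.inr ⟨?_, ?_, ?_, ?_⟩))
    · intro m
      rw [z_same G h1 hr]; exact hI.z m
    · intro c hc
      have : (Sum.inr (u c) : BB G) ∈ wk G y' := (mem_wk G).2 ⟨hc, rfl⟩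
      rw [hwk, mem_wk] at this
      exact hI.u c this.1
    · intro c hc
      have : (Sum.inr (p c) : BB G) ∈ wk G y' := (mem_wk G).2 ⟨hc, rfl⟩
      rw [hwk, mem_wk] at this
      exact hI.p c this.1
    · rw [hwk]; exact hI.w
  cases i with
  | t1 c => exact absurd hact (hI.u c)
  | t2 c v => exact absurd hact (hI.p c)
  | t3 c => exact hbasic trivial trivial
  | t3' c v => exact hbasic trivial trivial
  | t4 c => exact hbasic trivial trivial
  | t4' c => exact hbasic trivial trivial
  | t5 m => exact hbasic trivial trivial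
  | t6 v => exact absurd hact (hI.z _)
  | t7 h => exact absurd hact (hI.z _)
  | t8 => exact absurd hact (hI.z _)

theorem good_step {y y' : List (BB G)} {i : II G} (hg : Good G y)
    (hr : Rew (tab G i) y y') : Good G y' := by
  by_cases hd : Dead G y
  · exact Or.inl (dead_step G hd hr)
  by_cases hchk : chk G i ∈ y
  · exact Or.inl (dead_bad G (tb_chk hr hchk (act_ne_chk G i)))
  have hr1 : Rew (one (act G i) (img G i)) y y' := tb_one hr hchk
  by_cases hact : act G i ∈ y
  · rcases hg with h | h | ⟨v, h⟩ | h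
    · exact absurd h hd
    · exact good_inv0 G h hchk hact hr1
    · exact good_invV G h hchk hact hr1
    · exact good_invE G h hact hr1
  · rw [one_id hr1 hact]; exact hg

theorem good_start : Good G (sim G).start := by
  refine Or.inr (Or.inl ⟨?_, ?_, ?_⟩)
  · intro m
    simp [sim, mem_L1]
  · intro c v
    simp [sim, mem_L1]
  · refine ⟨G.start, Relation.ReflTransGen.refl, ?_⟩
    have h1 : wk G (sim G).start = G.start.map fun c => (Sum.inr (u c) : BB G) := by
      show wk G (G.start.map (fun c => (Sum.inr (u c) : BB G)) ++ (Sum.inr (Z none) :: L1 G)) = _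
      rw [wk_append]
      have h2 : wk G (G.start.map (fun c => (Sum.inr (u c) : BB G))) =
          G.start.map (fun c => (Sum.inr (u c) : BB G)) := by
        rw [wk, List.filter_eq_self]
        intro b hb
        obtain ⟨c, -, rfl⟩ := List.mem_map.1 hb
        rfl
      have h3 : wk G (Sum.inr (Z none) :: L1 G) = [] := by
        rw [wk, List.filter_eq_nil_iff]
        intro b hb
        rcases List.mem_cons.1 hb with rfl | hb
        · simp [isW]
        · obtain ⟨c, rfl | ⟨v, rfl⟩⟩ := (mem_L1 G).1 hb <;> simp [isW]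
      rw [h2, h3]; simp
    rw [h1]
    exact rew_map_self _ (by intro c _; exact Or.inl rfl)

theorem good_der {y : List (BB G)} (hy : (sim G).Der y) : Good G y := by
  unfold TSys.Der at hy
  induction hy with
  | refl => exact good_start G
  | tail _ h ih =>
    obtain ⟨_, ⟨i, rfl⟩, hr⟩ := h
    exact good_step G ih hr

theorem sim_sound {w : List T} (hw : w ∈ (sim G).language) : w ∈ G.language := by
  have hg := good_der G (y := w.map Sum.inl) hw
  rcases hg with h | h | ⟨v, h⟩ | h
  · exact (dead_terminal G h).elim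
  · have := (h.z none).2 rfl
    simp at this
  · have := (h.z (some v)).2 rfl
    simp at this
  · obtain ⟨w', hw', he⟩ := h.w
    have : wk G (w.map Sum.inl) = w.map Sum.inl := by
      rw [wk, List.filter_eq_self]
      intro b hb
      obtain ⟨c, -, rfl⟩ := List.mem_map.1 hb
      rfl
    rw [this] at he
    have : w = w' := List.map_injective_iff.2 Sum.inl_injective he
    rw [this]; exact hw'

/-! ### Completeness -/

/-- combined effect of a list of tables -/
noncomputable def FI : List (II G) → BB G → Set (List (BB G))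
  | [], c => {[c]}
  | i :: I, c => open Classical in if c = act G i then img G i else FI I c

theorem FI_id {I : List (II G)} {c : BB G} (h : ∀ j ∈ I, act G j ≠ c) : FI G I c = {[c]} := by
  induction I with
  | nil => rfl
  | cons i I ih =>
    have h1 : c ≠ act G i := fun h' => h i (by simp) h'.symm
    simp only [FI, if_neg h1]
    exact ih fun j hj => h j (by simp [hj])

theorem FI_mem {I : List (II G)} {i : II G} (hi : i ∈ I)
    (huniq : ∀ j ∈ I, act G j = act G i → img G j = img G i) : FI G I (act G i) = img G i := by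
  induction I with
  | nil => simp at hi
  | cons k I ih =>
    by_cases hk : act G i = act G k
    · simp only [FI, if_pos hk]
      exact huniq k (by simp) hk.symm
    · simp only [FI, if_neg hk]
      refine ih ?_ fun j hj => huniq j (by simp [hj])
      rcases List.mem_cons.1 hi with rfl | hi
      · exact absurd rfl hk
      · exact hi

def StepB (y y' : List (BB G)) : Prop := (sim G).Step y y'

theorem sweep (I : List (II G)) (y z : List (BB G)) (hz : Rew (FI G I) y z)
    (H1 : ∀ i ∈ I, chk G i ∉ y)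
    (H2 : ∀ i ∈ I, ∀ w ∈ img G i, ∀ j ∈ I, act G j ∉ w ∧ chk G j ∉ w) :
    Relation.ReflTransGen (sim G).Step y z := by
  induction I generalizing y with
  | nil =>
    have : z = y := rew_id_eq (g := FI G []) (fun c _ => rfl) hz
    rw [this]
  | cons i I ih =>
    have hfac : ∃ y1, Rew (one (act G i) (img G i)) y y1 ∧ Rew (FI G I) y1 z := by
      refine rew_decomp ?_ hz
      intro c _ w' hw'
      by_cases hc : c = act G i
      · subst hc
        have hw : w' ∈ img G i := by simpa [FI] using hw'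
        refine ⟨w', by simpa [one] using hw, ?_⟩
        refine rew_id ?_
        intro b hb
        have : FI G I b = {[b]} := by
          refine FI_id G ?_
          intro j hj hjb
          exact (H2 i (by simp) w' hw j (by simp [hj])).1 (hjb ▸ hb)
        rw [this]; rfl
      · refine ⟨[c], by simp [one, hc], ?_⟩
        rw [rew_singleton_iff]
        simpa [FI, hc] using hw'
    obtain ⟨y1, h1, h2⟩ := hfac
    have hstep : (sim G).Step y y1 := ⟨tab G i, ⟨i, rfl⟩, one_tb h1 (H1 i (by simp))⟩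
    refine Relation.ReflTransGen.head hstep (ih y1 h2 ?_ ?_)
    · intro j hj hmem
      rcases one_from h1 hmem with ⟨h3, -⟩ | ⟨-, w, hw, hb⟩
      · exact H1 j (by simp [hj]) h3
      · exact (H2 i (by simp) w hw j (by simp [hj])).2 hb
    · intro k hk w hw j hj
      exact H2 k (by simp [hk]) w hw j (by simp [hj])

theorem bigStep (I : List (II G)) (W W' : List (BB G)) (K K' : BB G → Prop)
    (hW : Rew (FI G I) W W')
    (hK : ∀ b, K b → ∃ w ∈ FI G I b, ∀ b' ∈ w, K' b')
    (H1 : ∀ i ∈ I, chk G i ∉ W) (H1' : ∀ i ∈ I, ¬ K (chk G i))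
    (H2 : ∀ i ∈ I, ∀ w ∈ img G i, ∀ j ∈ I, act G j ∉ w ∧ chk G j ∉ w)
    (C : List (BB G)) (hC : ∀ b ∈ C, K b) :
    ∃ C', (∀ b ∈ C', K' b) ∧ Relation.ReflTransGen (sim G).Step (W ++ C) (W' ++ C') := by
  obtain ⟨C', hC', hK'⟩ := rew_exists (h := FI G I) (x := C) K' fun b hb => hK b (hC b hb)
  refine ⟨C', hK', sweep G I _ _ (rew_append hW hC') ?_ H2⟩
  intro i hi hmem
  rcases List.mem_append.1 hmem with h | h
  · exact H1 i hi h
  · exact H1' i hi (hC _ h)

end sim4

section sim5
variable {T N : Type} [Finite T] [Finite N] (G : TSys T N)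

theorem FI_map_mem {α : Type} {l : List α} {f : α → II G} {a : α} (ha : a ∈ l)
    (huniq : ∀ a' ∈ l, act G (f a') = act G (f a) → img G (f a') = img G (f a)) :
    FI G (l.map f) (act G (f a)) = img G (f a) := by
  refine FI_mem G (List.mem_map_of_mem ha) ?_
  intro j hj
  obtain ⟨a', ha', rfl⟩ := List.mem_map.1 hj
  exact huniq a' ha'

theorem FI_map_id {α : Type} {l : List α} {f : α → II G} {b : BB G}
    (h : ∀ a ∈ l, act G (f a) ≠ b) : FI G (l.map f) b = {[b]} := by
  refine FI_id G ?_
  intro j hj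
  obtain ⟨a', ha', rfl⟩ := List.mem_map.1 hj
  exact h a' ha'

def mu (x : List (T ⊕ N)) : List (BB G) := x.map fun c => Sum.inr (u c)
def mp (x : List (T ⊕ N)) : List (BB G) := x.map fun c => Sum.inr (p c)

def KA (b : BB G) : Prop := b = Sum.inr (Z none) ∨ ∃ c v, b = Sum.inr (X c v)

def KB1 (v : WW G) (b : BB G) : Prop :=
  b = Sum.inr (Z (some v)) ∨ (∃ c, b = Sum.inr (X0 c)) ∨ (∃ c, b = Sum.inr (r0 c)) ∨
    ∃ c v', b = Sum.inr (X c v')

def KB2 (v : WW G) (b : BB G) : Prop :=
  b = Sum.inr (Z (some v)) ∨ (∃ c, b = Sum.inr (X0 c)) ∨ ∃ c v', b = Sum.inr (X c v')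

def KB3 (v : WW G) (b : BB G) : Prop :=
  b = Sum.inr (Z (some v)) ∨ (∃ c, b = Sum.inr (X0 c)) ∨
    (∃ c v', v' ≠ v ∧ b = Sum.inr (X c v')) ∨ ∃ m, m ≠ some v ∧ b = Sum.inr (s m)

def KB4 (v : WW G) (b : BB G) : Prop :=
  b = Sum.inr (Z (some v)) ∨ (∃ c, b = Sum.inr (X0 c)) ∨
    (∃ c v', v' ≠ v ∧ b = Sum.inr (X c v'))

theorem mem_mu {x : List (T ⊕ N)} {b : BB G} (h : b ∈ mu G x) : ∃ c, b = Sum.inr (u c) := by
  obtain ⟨c, -, rfl⟩ := List.mem_map.1 h
  exact ⟨c, rfl⟩

theorem mem_mp {x : List (T ⊕ N)} {b : BB G} (h : b ∈ mp G x) : ∃ c, b = Sum.inr (p c) := by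
  obtain ⟨c, -, rfl⟩ := List.mem_map.1 h
  exact ⟨c, rfl⟩

/-- identity on the work part -/
theorem rew_work_id {I : List (II G)} {W : List (BB G)}
    (h : ∀ b ∈ W, ∀ j ∈ I, act G j ≠ b) : Rew (FI G I) W W := by
  refine rew_id ?_
  intro b hb
  rw [FI_id G (h b hb)]; rfl

theorem m1 (x : List (T ⊕ N)) (C : List (BB G)) (hC : ∀ b ∈ C, KA G b) :
    ∃ C', (∀ b ∈ C', KA G b) ∧
      Relation.ReflTransGen (sim G).Step (mu G x ++ C) (mp G x ++ C') := by
  refine bigStep G ((all (T ⊕ N)).map t1) (mu G x) (mp G x) (KA G) (KA G) ?_ ?_ ?_ ?_ ?_ C hC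
  · have : ∀ c : T ⊕ N, FI G ((all (T ⊕ N)).map t1) (Sum.inr (u c)) = {[Sum.inr (p c)]} := by
      intro c
      refine FI_map_mem G (f := t1) (a := c) (mem_all c) ?_
      intro a' _ h
      have : a' = c := by simpa [act] using h
      rw [this]
    clear hC
    induction x with
    | nil => exact Rew.nil
    | cons c x ih =>
      have h1 := Rew.cons (h := FI G ((all (T ⊕ N)).map t1)) (c := Sum.inr (u c))
        (u := [Sum.inr (p c)]) (by rw [this]; rfl) ih
      simpa [mu, mp] using h1
  · intro b hb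
    refine ⟨[b], ?_, by simpa using hb⟩
    rw [FI_map_id]
    · rfl
    · intro a _
      rcases hb with rfl | ⟨c, v, rfl⟩ <;> simp [act]
  · intro i hi hmem
    obtain ⟨a', ha', rfl⟩ := List.mem_map.1 hi
    obtain ⟨c, hc⟩ := mem_mu G hmem
    simp [chk] at hc
  · intro i hi hmem
    obtain ⟨a', ha', rfl⟩ := List.mem_map.1 hi
    simp [chk, KA] at hmem
  · intro i hi w hw j hj
    obtain ⟨a', ha', rfl⟩ := List.mem_map.1 hi
    obtain ⟨a'', ha'', rfl⟩ := List.mem_map.1 hj
    have : w = [Sum.inr (p a')] := hw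
    subst this
    simp [act, chk]

theorem m2 (v : WW G) (x : List (T ⊕ N)) (C : List (BB G)) (hC : ∀ b ∈ C, KA G b) :
    ∃ C', (∀ b ∈ C', KB1 G v b) ∧
      Relation.ReflTransGen (sim G).Step (mp G x ++ C) (mp G x ++ C') := by
  refine bigStep G [t6 v] (mp G x) (mp G x) (KA G) (KB1 G v) ?_ ?_ ?_ ?_ ?_ C hC
  · refine rew_work_id G ?_
    intro b hb j hj
    obtain ⟨c, rfl⟩ := mem_mp G hb
    have : j = t6 v := by simpa using hj
    subst this
    simp [act]
  · intro b hb
    rcases hb with rfl | ⟨c, v', rfl⟩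
    · refine ⟨Sum.inr (Z (some v)) :: L0 G, ?_, ?_⟩
      · simp [FI, act, img]
      · intro b' hb'
        rcases List.mem_cons.1 hb' with rfl | hb'
        · exact Or.inl rfl
        · obtain ⟨c, rfl | rfl⟩ := (mem_L0 G).1 hb'
          · exact Or.inr (Or.inl ⟨c, rfl⟩)
          · exact Or.inr (Or.inr (Or.inl ⟨c, rfl⟩))
    · refine ⟨[Sum.inr (X c v')], ?_, ?_⟩
      · simp [FI, act]
      · intro b' hb'
        have : b' = Sum.inr (X c v') := by simpa using hb'
        subst this
        exact Or.inr (Or.inr (Or.inr ⟨c, v', rfl⟩))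
  · intro i hi hmem
    have : i = t6 v := by simpa using hi
    subst this
    obtain ⟨c, hc⟩ := mem_mp G hmem
    simp [chk] at hc
  · intro i hi hmem
    have : i = t6 v := by simpa using hi
    subst this
    simp [chk, KA] at hmem
  · intro i hi w hw j hj
    have : i = t6 v := by simpa using hi
    subst this
    have : j = t6 v := by simpa using hj
    subst this
    have : w = Sum.inr (Z (some v)) :: L0 G := hw
    subst this
    simp [act, chk, mem_L0]

theorem m3 (v : WW G) (x : List (T ⊕ N)) (C : List (BB G)) (hC : ∀ b ∈ C, KB1 G v b) :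
    ∃ C', (∀ b ∈ C', KB2 G v b) ∧
      Relation.ReflTransGen (sim G).Step (mp G x ++ C) (mp G x ++ C') := by
  refine bigStep G ((all (T ⊕ N)).map t4) (mp G x) (mp G x) (KB1 G v) (KB2 G v)
    ?_ ?_ ?_ ?_ ?_ C hC
  · refine rew_work_id G ?_
    intro b hb j hj
    obtain ⟨c, rfl⟩ := mem_mp G hb
    obtain ⟨a', ha', rfl⟩ := List.mem_map.1 hj
    simp [act]
  · intro b hb
    by_cases hr : ∃ c, b = Sum.inr (r0 c)
    · obtain ⟨c, rfl⟩ := hr
      refine ⟨[], ?_, by simp⟩
      have := FI_map_mem G (l := all (T ⊕ N)) (f := t4) (a := c) (mem_all c) (fun _ _ _ => rfl)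
      have h2 : FI G ((all (T ⊕ N)).map t4) (Sum.inr (r0 c)) = {[]} := this
      rw [h2]; rfl
    · refine ⟨[b], ?_, ?_⟩
      · rw [FI_map_id]
        · rfl
        · intro a _ h
          exact hr ⟨a, h.symm⟩
      · intro b' hb'
        have : b' = b := by simpa using hb'
        subst this
        rcases hb with h | h | h | h
        · exact Or.inl h
        · exact Or.inr (Or.inl h)
        · exact absurd h hr
        · exact Or.inr (Or.inr h)
  · intro i hi hmem
    obtain ⟨a', ha', rfl⟩ := List.mem_map.1 hi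
    obtain ⟨c, hc⟩ := mem_mp G hmem
    simp [chk] at hc
  · intro i hi hmem
    obtain ⟨a', ha', rfl⟩ := List.mem_map.1 hi
    simp [chk, KB1] at hmem
  · intro i hi w hw j hj
    obtain ⟨a', ha', rfl⟩ := List.mem_map.1 hi
    have : w = [] := hw
    subst this
    simp

theorem m4 (v : WW G) (x : List (T ⊕ N)) (C : List (BB G)) (hC : ∀ b ∈ C, KB2 G v b) :
    ∃ C', (∀ b ∈ C', KB3 G v b) ∧
      Relation.ReflTransGen (sim G).Step (mp G x ++ C) (mp G x ++ C') := by
  refine bigStep G ((all (T ⊕ N)).map fun c => t3' c v) (mp G x) (mp G x) (KB2 G v) (KB3 G v)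
    ?_ ?_ ?_ ?_ ?_ C hC
  · refine rew_work_id G ?_
    intro b hb j hj
    obtain ⟨c, rfl⟩ := mem_mp G hb
    obtain ⟨a', ha', rfl⟩ := List.mem_map.1 hj
    simp [act]
  · intro b hb
    by_cases hr : ∃ c, b = Sum.inr (X c v)
    · obtain ⟨c, rfl⟩ := hr
      have h2 := FI_map_mem G (l := all (T ⊕ N)) (f := fun c => t3' c v) (a := c) (mem_all c)
        (fun _ _ _ => rfl)
      have h3 : FI G ((all (T ⊕ N)).map fun c => t3' c v) (Sum.inr (X c v)) = _ := h2
      rw [h3]
      refine ⟨_, rfl, ?_⟩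
      intro b' hb'
      obtain ⟨m, hm, rfl⟩ := List.mem_map.1 hb'
      refine Or.inr (Or.inr (Or.inr ⟨m, ?_, rfl⟩))
      simpa using (List.mem_filter.1 hm).2
    · refine ⟨[b], ?_, ?_⟩
      · rw [FI_map_id]
        · rfl
        · intro a _ h
          exact hr ⟨a, h.symm⟩
      · intro b' hb'
        have : b' = b := by simpa using hb'
        subst this
        rcases hb with h | h | ⟨c, v', rfl⟩
        · exact Or.inl h
        · exact Or.inr (Or.inl h)
        · refine Or.inr (Or.inr (Or.inl ⟨c, v', ?_, rfl⟩))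
          rintro rfl
          exact hr ⟨c, rfl⟩
  · intro i hi hmem
    obtain ⟨a', ha', rfl⟩ := List.mem_map.1 hi
    obtain ⟨c, hc⟩ := mem_mp G hmem
    simp [chk] at hc
  · intro i hi hmem
    obtain ⟨a', ha', rfl⟩ := List.mem_map.1 hi
    simp [chk, KB2] at hmem
  · intro i hi w hw j hj
    obtain ⟨a', ha', rfl⟩ := List.mem_map.1 hi
    obtain ⟨a'', ha'', rfl⟩ := List.mem_map.1 hj
    have : w = _ := hw
    subst this
    simp [act, chk]

theorem m5 (v : WW G) (x : List (T ⊕ N)) (C : List (BB G)) (hC : ∀ b ∈ C, KB3 G v b) :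
    ∃ C', (∀ b ∈ C', KB4 G v b) ∧
      Relation.ReflTransGen (sim G).Step (mp G x ++ C) (mp G x ++ C') := by
  refine bigStep G (((all (Option (WW G))).filter (open Classical in fun m => m ≠ some v)).map t5)
    (mp G x) (mp G x) (KB3 G v) (KB4 G v) ?_ ?_ ?_ ?_ ?_ C hC
  · refine rew_work_id G ?_
    intro b hb j hj
    obtain ⟨c, rfl⟩ := mem_mp G hb
    obtain ⟨a', ha', rfl⟩ := List.mem_map.1 hj
    simp [act]
  · intro b hb
    by_cases hr : ∃ m, m ≠ some v ∧ b = Sum.inr (s m)
    · obtain ⟨m, hm, rfl⟩ := hr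
      refine ⟨[], ?_, by simp⟩
      have := FI_map_mem G
        (l := (all (Option (WW G))).filter (open Classical in fun m => m ≠ some v))
        (f := t5) (a := m) (by simp [mem_all, hm]) (fun _ _ _ => rfl)
      have h2 : FI G (((all (Option (WW G))).filter
        (open Classical in fun m => m ≠ some v)).map t5) (Sum.inr (s m)) = {[]} := this
      rw [h2]; rfl
    · refine ⟨[b], ?_, ?_⟩
      · rw [FI_map_id]
        · rfl
        · intro a ha h
          exact hr ⟨a, by simpa using (List.mem_filter.1 ha).2, h.symm⟩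
      · intro b' hb'
        have : b' = b := by simpa using hb'
        subst this
        rcases hb with h | h | h | h
        · exact Or.inl h
        · exact Or.inr (Or.inl h)
        · exact Or.inr (Or.inr h)
        · exact absurd h hr
  · intro i hi hmem
    obtain ⟨a', ha', rfl⟩ := List.mem_map.1 hi
    obtain ⟨c, hc⟩ := mem_mp G hmem
    simp [chk] at hc
  · intro i hi hmem
    obtain ⟨a', ha', rfl⟩ := List.mem_map.1 hi
    have h1 : a' ≠ some v := by simpa using (List.mem_filter.1 ha').2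
    simp [chk, KB3] at hmem
    exact h1 hmem
  · intro i hi w hw j hj
    obtain ⟨a', ha', rfl⟩ := List.mem_map.1 hi
    have : w = [] := hw
    subst this
    simp

theorem half1 (v : WW G) (x : List (T ⊕ N)) (C : List (BB G)) (hC : ∀ b ∈ C, KA G b) :
    ∃ C', (∀ b ∈ C', KB4 G v b) ∧
      Relation.ReflTransGen (sim G).Step (mu G x ++ C) (mp G x ++ C') := by
  obtain ⟨C1, hC1, h1⟩ := m1 G x C hC
  obtain ⟨C2, hC2, h2⟩ := m2 G v x C1 hC1
  obtain ⟨C3, hC3, h3⟩ := m3 G v x C2 hC2
  obtain ⟨C4, hC4, h4⟩ := m4 G v x C3 hC3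
  obtain ⟨C5, hC5, h5⟩ := m5 G v x C4 hC4
  exact ⟨C5, hC5, (((h1.trans h2).trans h3).trans h4).trans h5⟩

end sim5

section sim6
variable {T N : Type} [Finite T] [Finite N] (G : TSys T N)

def KB5 (b : BB G) : Prop :=
  b = Sum.inr (Z none) ∨ (∃ c, b = Sum.inr (X0 c)) ∨ (∃ c, b = Sum.inr (r1 c)) ∨
    ∃ c v', b = Sum.inr (X c v')

def KB6 (b : BB G) : Prop :=
  b = Sum.inr (Z none) ∨ (∃ c, b = Sum.inr (X0 c)) ∨ ∃ c v', b = Sum.inr (X c v')

def KB7 (b : BB G) : Prop :=
  b = Sum.inr (Z none) ∨ (∃ c v', b = Sum.inr (X c v')) ∨ ∃ v, b = Sum.inr (s (some v))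

theorem m6 (h : G.tables) (x x' : List (T ⊕ N)) (hx : Rew h.1 x x')
    (C : List (BB G)) (hC : ∀ b ∈ C, KB4 G (some h) b) :
    ∃ C', (∀ b ∈ C', KB4 G (some h) b) ∧
      Relation.ReflTransGen (sim G).Step (mp G x ++ C) (mu G x' ++ C') := by
  refine bigStep G ((all (T ⊕ N)).map fun c => t2 c (some h)) (mp G x) (mu G x')
    (KB4 G (some h)) (KB4 G (some h)) ?_ ?_ ?_ ?_ ?_ C hC
  · have h1 : ∀ c : T ⊕ N, FI G ((all (T ⊕ N)).map fun c => t2 c (some h)) (Sum.inr (p c)) =
        out G (some h) c := by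
      intro c
      have := FI_map_mem G (l := all (T ⊕ N)) (f := fun c => t2 c (some h)) (a := c)
        (mem_all c) ?_
      · exact this
      · intro a' _ h
        have : a' = c := by simpa [act] using h
        rw [this]
    clear hC
    induction hx with
    | nil => exact Rew.nil
    | @cons c w x z hw _ ih =>
      have h2 := Rew.cons (h := FI G ((all (T ⊕ N)).map fun c => t2 c (some h)))
        (c := Sum.inr (p c)) (u := mu G w) (by rw [h1]; exact ⟨w, hw, rfl⟩) ih
      simpa [mu, mp] using h2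
  · intro b hb
    refine ⟨[b], ?_, by simpa using hb⟩
    rw [FI_map_id]
    · rfl
    · intro a _
      rcases hb with rfl | ⟨c, rfl⟩ | ⟨c, v', -, rfl⟩ <;> simp [act]
  · intro i hi hmem
    obtain ⟨a', ha', rfl⟩ := List.mem_map.1 hi
    obtain ⟨c, hc⟩ := mem_mp G hmem
    simp [chk] at hc
  · intro i hi hmem
    obtain ⟨a', ha', rfl⟩ := List.mem_map.1 hi
    simp [chk, KB4] at hmem
  · intro i hi w hw j hj
    obtain ⟨a', ha', rfl⟩ := List.mem_map.1 hi
    obtain ⟨a'', ha'', rfl⟩ := List.mem_map.1 hj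
    obtain ⟨w0, -, rfl⟩ := hw
    simp [act, chk]

/-- the generic form of a step that only concerns control letters -/
theorem ctl_step (I : List (II G)) (W : List (BB G)) (K K' : BB G → Prop)
    (hW : ∀ b ∈ W, ∀ j ∈ I, act G j ≠ b)
    (hK : ∀ b, K b → ∃ w ∈ FI G I b, ∀ b' ∈ w, K' b')
    (H1 : ∀ i ∈ I, chk G i ∉ W) (H1' : ∀ i ∈ I, ¬ K (chk G i))
    (H2 : ∀ i ∈ I, ∀ w ∈ img G i, ∀ j ∈ I, act G j ∉ w ∧ chk G j ∉ w)
    (C : List (BB G)) (hC : ∀ b ∈ C, K b) :
    ∃ C', (∀ b ∈ C', K' b) ∧ Relation.ReflTransGen (sim G).Step (W ++ C) (W ++ C') :=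
  bigStep G I W W K K' (rew_work_id G hW) hK H1 H1' H2 C hC

theorem m7 (h : G.tables) (x : List (T ⊕ N)) (C : List (BB G))
    (hC : ∀ b ∈ C, KB4 G (some h) b) :
    ∃ C', (∀ b ∈ C', KB5 G b) ∧
      Relation.ReflTransGen (sim G).Step (mu G x ++ C) (mu G x ++ C') := by
  refine ctl_step G [t7 h] (mu G x) (KB4 G (some h)) (KB5 G) ?_ ?_ ?_ ?_ ?_ C hC
  · intro b hb j hj
    obtain ⟨c, rfl⟩ := mem_mu G hb
    have : j = t7 h := by simpa using hj
    subst this
    simp [act]
  · intro b hb
    rcases hb with rfl | ⟨c, rfl⟩ | ⟨c, v', -, rfl⟩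
    · refine ⟨Sum.inr (Z none) :: L1 G, ?_, ?_⟩
      · simp [FI, act, img]
      · intro b' hb'
        rcases List.mem_cons.1 hb' with rfl | hb'
        · exact Or.inl rfl
        · obtain ⟨c, rfl | ⟨v, rfl⟩⟩ := (mem_L1 G).1 hb'
          · exact Or.inr (Or.inr (Or.inl ⟨c, rfl⟩))
          · exact Or.inr (Or.inr (Or.inr ⟨c, v, rfl⟩))
    · refine ⟨[Sum.inr (X0 c)], ?_, ?_⟩
      · simp [FI, act]
      · intro b' hb'
        have : b' = Sum.inr (X0 c) := by simpa using hb'
        subst this
        exact Or.inr (Or.inl ⟨c, rfl⟩)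
    · refine ⟨[Sum.inr (X c v')], ?_, ?_⟩
      · simp [FI, act]
      · intro b' hb'
        have : b' = Sum.inr (X c v') := by simpa using hb'
        subst this
        exact Or.inr (Or.inr (Or.inr ⟨c, v', rfl⟩))
  · intro i hi hmem
    have : i = t7 h := by simpa using hi
    subst this
    obtain ⟨c, hc⟩ := mem_mu G hmem
    simp [chk] at hc
  · intro i hi hmem
    have : i = t7 h := by simpa using hi
    subst this
    simp [chk, KB4] at hmem
  · intro i hi w hw j hj
    have : i = t7 h := by simpa using hi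
    subst this
    have : j = t7 h := by simpa using hj
    subst this
    have : w = Sum.inr (Z none) :: L1 G := hw
    subst this
    simp [act, chk, mem_L1]

/-- erasing the detectors `r1` when no primed letter is present; `P` is any property of letters
that the other control letters have -/
theorem m8 (W : List (BB G)) (hWp : ∀ c, (Sum.inr (p c) : BB G) ∉ W)
    (hWr : ∀ c, (Sum.inr (r1 c) : BB G) ∉ W) (K' : BB G → Prop)
    (hK' : ∀ c, ¬ K' (Sum.inr (p c))) (C : List (BB G))
    (hC : ∀ b ∈ C, K' b ∨ ∃ c, b = Sum.inr (r1 c)) :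
    ∃ C', (∀ b ∈ C', K' b) ∧
      Relation.ReflTransGen (sim G).Step (W ++ C) (W ++ C') := by
  refine ctl_step G ((all (T ⊕ N)).map t4') W (fun b => K' b ∨ ∃ c, b = Sum.inr (r1 c)) K'
    ?_ ?_ ?_ ?_ ?_ C hC
  · intro b hb j hj
    obtain ⟨a', ha', rfl⟩ := List.mem_map.1 hj
    rintro rfl
    exact hWr _ hb
  · intro b hb
    by_cases hr : ∃ c, b = Sum.inr (r1 c)
    · obtain ⟨c, rfl⟩ := hr
      refine ⟨[], ?_, by simp⟩
      have := FI_map_mem G (l := all (T ⊕ N)) (f := t4') (a := c) (mem_all c) (fun _ _ _ => rfl)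
      have h2 : FI G ((all (T ⊕ N)).map t4') (Sum.inr (r1 c)) = {[]} := this
      rw [h2]; rfl
    · refine ⟨[b], ?_, ?_⟩
      · rw [FI_map_id]
        · rfl
        · intro a _ h
          exact hr ⟨a, h.symm⟩
      · intro b' hb'
        have : b' = b := by simpa using hb'
        subst this
        rcases hb with h | h
        · exact h
        · exact absurd h hr
  · intro i hi hmem
    obtain ⟨a', ha', rfl⟩ := List.mem_map.1 hi
    exact hWp _ hmem
  · intro i hi hmem
    obtain ⟨a', ha', rfl⟩ := List.mem_map.1 hi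
    rcases hmem with h | ⟨c, h⟩
    · exact hK' _ h
    · simp [chk] at h
  · intro i hi w hw j hj
    obtain ⟨a', ha', rfl⟩ := List.mem_map.1 hi
    have : w = [] := hw
    subst this
    simp

theorem m9 (x : List (T ⊕ N)) (C : List (BB G))
    (hC : ∀ b ∈ C, KB6 G b) :
    ∃ C', (∀ b ∈ C', KB7 G b) ∧
      Relation.ReflTransGen (sim G).Step (mu G x ++ C) (mu G x ++ C') := by
  refine ctl_step G ((all (T ⊕ N)).map t3) (mu G x) (KB6 G) (KB7 G) ?_ ?_ ?_ ?_ ?_ C hC
  · intro b hb j hj
    obtain ⟨c, rfl⟩ := mem_mu G hb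
    obtain ⟨a', ha', rfl⟩ := List.mem_map.1 hj
    simp [act]
  · intro b hb
    by_cases hr : ∃ c, b = Sum.inr (X0 c)
    · obtain ⟨c, rfl⟩ := hr
      have h2 := FI_map_mem G (l := all (T ⊕ N)) (f := t3) (a := c) (mem_all c)
        (fun _ _ _ => rfl)
      have h3 : FI G ((all (T ⊕ N)).map t3) (Sum.inr (X0 c)) = _ := h2
      rw [h3]
      refine ⟨_, rfl, ?_⟩
      intro b' hb'
      obtain ⟨m, hm, rfl⟩ := List.mem_map.1 hb'
      exact Or.inr (Or.inr ⟨m, rfl⟩)
    · refine ⟨[b], ?_, ?_⟩
      · rw [FI_map_id]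
        · rfl
        · intro a _ h
          exact hr ⟨a, h.symm⟩
      · intro b' hb'
        have : b' = b := by simpa using hb'
        subst this
        rcases hb with h | h | h
        · exact Or.inl h
        · exact absurd h hr
        · exact Or.inr (Or.inl h)
  · intro i hi hmem
    obtain ⟨a', ha', rfl⟩ := List.mem_map.1 hi
    obtain ⟨c, hc⟩ := mem_mu G hmem
    simp [chk] at hc
  · intro i hi hmem
    obtain ⟨a', ha', rfl⟩ := List.mem_map.1 hi
    simp [chk, KB6] at hmem
  · intro i hi w hw j hj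
    obtain ⟨a', ha', rfl⟩ := List.mem_map.1 hi
    obtain ⟨a'', ha'', rfl⟩ := List.mem_map.1 hj
    have : w = _ := hw
    subst this
    simp [act, chk]

theorem m10 (x : List (T ⊕ N)) (C : List (BB G))
    (hC : ∀ b ∈ C, KB7 G b) :
    ∃ C', (∀ b ∈ C', KA G b) ∧
      Relation.ReflTransGen (sim G).Step (mu G x ++ C) (mu G x ++ C') := by
  refine ctl_step G ((all (WW G)).map fun v => t5 (some v)) (mu G x) (KB7 G) (KA G)
    ?_ ?_ ?_ ?_ ?_ C hC
  · intro b hb j hj
    obtain ⟨c, rfl⟩ := mem_mu G hb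
    obtain ⟨a', ha', rfl⟩ := List.mem_map.1 hj
    simp [act]
  · intro b hb
    by_cases hr : ∃ v, b = Sum.inr (s (some v))
    · obtain ⟨v, rfl⟩ := hr
      refine ⟨[], ?_, by simp⟩
      have h2 := FI_map_mem G (l := all (WW G)) (f := fun v => t5 (some v)) (a := v) (mem_all v)
        (fun _ _ _ => rfl)
      have h3 : FI G ((all (WW G)).map fun v => t5 (some v)) (Sum.inr (s (some v))) = {[]} := h2
      rw [h3]; rfl
    · refine ⟨[b], ?_, ?_⟩
      · rw [FI_map_id]
        · rfl
        · intro a _ h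
          exact hr ⟨a, h.symm⟩
      · intro b' hb'
        have : b' = b := by simpa using hb'
        subst this
        rcases hb with h | h | h
        · exact Or.inl h
        · exact Or.inr h
        · exact absurd h hr
  · intro i hi hmem
    obtain ⟨a', ha', rfl⟩ := List.mem_map.1 hi
    obtain ⟨c, hc⟩ := mem_mu G hmem
    simp [chk] at hc
  · intro i hi hmem
    obtain ⟨a', ha', rfl⟩ := List.mem_map.1 hi
    simp [chk, KB7] at hmem
  · intro i hi w hw j hj
    obtain ⟨a', ha', rfl⟩ := List.mem_map.1 hi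
    have : w = [] := hw
    subst this
    simp

theorem no_p_mu (x : List (T ⊕ N)) (c : T ⊕ N) : (Sum.inr (p c) : BB G) ∉ mu G x := by
  intro h
  obtain ⟨c, hc⟩ := mem_mu G h
  simp at hc

theorem no_r1_mu (x : List (T ⊕ N)) (c : T ⊕ N) : (Sum.inr (r1 c) : BB G) ∉ mu G x := by
  intro h
  obtain ⟨c, hc⟩ := mem_mu G h
  simp at hc

/-- one full simulated step -/
theorem full_step (h : G.tables) (x x' : List (T ⊕ N)) (hx : Rew h.1 x x')
    (C : List (BB G)) (hC : ∀ b ∈ C, KA G b) :
    ∃ C', (∀ b ∈ C', KA G b) ∧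
      Relation.ReflTransGen (sim G).Step (mu G x ++ C) (mu G x' ++ C') := by
  obtain ⟨C1, hC1, h1⟩ := half1 G (some h) x C hC
  obtain ⟨C2, hC2, h2⟩ := m6 G h x x' hx C1 hC1
  obtain ⟨C3, hC3, h3⟩ := m7 G h x' C2 hC2
  obtain ⟨C4, hC4, h4⟩ := m8 G (mu G x') (no_p_mu G x') (no_r1_mu G x') (KB6 G)
    (by intro c hc; simp [KB6] at hc) C3 (by
      intro b hb
      rcases hC3 b hb with h | h | h | h
      · exact Or.inl (Or.inl h)
      · exact Or.inl (Or.inr (Or.inl h))
      · exact Or.inr h
      · exact Or.inl (Or.inr (Or.inr h)))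
  obtain ⟨C5, hC5, h5⟩ := m9 G x' C4 hC4
  obtain ⟨C6, hC6, h6⟩ := m10 G x' C5 hC5
  exact ⟨C6, hC6, ((((h1.trans h2).trans h3).trans h4).trans h5).trans h6⟩

theorem reach_mu {x : List (T ⊕ N)} (hx : G.Der x) :
    ∃ C, (∀ b ∈ C, KA G b) ∧ (sim G).Der (mu G x ++ C) := by
  unfold TSys.Der at hx
  induction hx with
  | refl =>
    -- the starting word still contains the detectors `r1`; erase them
    have := m8 G (mu G G.start) (no_p_mu G _) (no_r1_mu G _) (KA G)
      (by intro c hc; simp [KA] at hc) (Sum.inr (Z none) :: L1 G) (by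
        intro b hb
        rcases List.mem_cons.1 hb with rfl | hb
        · exact Or.inl (Or.inl rfl)
        · obtain ⟨c, rfl | ⟨v, rfl⟩⟩ := (mem_L1 G).1 hb
          · exact Or.inr ⟨c, rfl⟩
          · exact Or.inl (Or.inr ⟨c, v, rfl⟩))
    obtain ⟨C, hC, h⟩ := this
    exact ⟨C, hC, h⟩
  | tail _ hstep ih =>
    obtain ⟨C, hC, hd⟩ := ih
    obtain ⟨h, hh, hr⟩ := hstep
    obtain ⟨C', hC', h2⟩ := full_step G ⟨h, hh⟩ _ _ hr C hC
    exact ⟨C', hC', Relation.ReflTransGen.trans hd h2⟩

/-! final phase -/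

theorem f6 (w : List T) (C : List (BB G)) (hC : ∀ b ∈ C, KB4 G none b) :
    ∃ C', (∀ b ∈ C', KB4 G none b) ∧
      Relation.ReflTransGen (sim G).Step (mp G (w.map Sum.inl) ++ C) (w.map Sum.inl ++ C') := by
  refine bigStep G ((all T).map fun t => t2 (Sum.inl t) none) (mp G (w.map Sum.inl))
    (w.map Sum.inl) (KB4 G none) (KB4 G none) ?_ ?_ ?_ ?_ ?_ C hC
  · have h1 : ∀ t : T, FI G ((all T).map fun t => t2 (Sum.inl t) none)
        (Sum.inr (p (Sum.inl t))) = {[Sum.inl t]} := by
      intro t
      have := FI_map_mem G (l := all T) (f := fun t => t2 (Sum.inl t) none) (a := t)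
        (mem_all t) ?_
      · exact this
      · intro a' _ h
        have : a' = t := by simpa [act] using h
        rw [this]
    clear hC
    induction w with
    | nil => exact Rew.nil
    | cons t w ih =>
      have h2 := Rew.cons (h := FI G ((all T).map fun t => t2 (Sum.inl t) none))
        (c := Sum.inr (p (Sum.inl t))) (u := [Sum.inl t]) (by rw [h1]; rfl) ih
      simpa [mp] using h2
  · intro b hb
    refine ⟨[b], ?_, by simpa using hb⟩
    rw [FI_map_id]
    · rfl
    · intro a _
      rcases hb with rfl | ⟨c, rfl⟩ | ⟨c, v', -, rfl⟩ <;> simp [act]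
  · intro i hi hmem
    obtain ⟨a', ha', rfl⟩ := List.mem_map.1 hi
    obtain ⟨c, hc⟩ := mem_mp G hmem
    simp [chk] at hc
  · intro i hi hmem
    obtain ⟨a', ha', rfl⟩ := List.mem_map.1 hi
    simp [chk, KB4] at hmem
  · intro i hi w hw j hj
    obtain ⟨a', ha', rfl⟩ := List.mem_map.1 hi
    obtain ⟨a'', ha'', rfl⟩ := List.mem_map.1 hj
    have : w = [Sum.inl a'] := hw
    subst this
    simp [act, chk]

theorem f7 (w : List T) (C : List (BB G)) (hC : ∀ b ∈ C, KB4 G none b) :
    ∃ C', (∀ b ∈ C', ((∃ c, b = Sum.inr (X0 c)) ∨ ∃ c v, b = Sum.inr (X c v)) ∨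
        ∃ c, b = Sum.inr (r1 c)) ∧
      Relation.ReflTransGen (sim G).Step (w.map Sum.inl ++ C) (w.map Sum.inl ++ C') := by
  refine ctl_step G [t8] (w.map Sum.inl) (KB4 G none) _ ?_ ?_ ?_ ?_ ?_ C hC
  · intro b hb j hj
    obtain ⟨c, -, rfl⟩ := List.mem_map.1 hb
    have : j = t8 := by simpa using hj
    subst this
    simp [act]
  · intro b hb
    rcases hb with rfl | ⟨c, rfl⟩ | ⟨c, v', -, rfl⟩
    · refine ⟨L1 G, ?_, ?_⟩
      · simp [FI, act, img]
      · intro b' hb'
        obtain ⟨c, rfl | ⟨v, rfl⟩⟩ := (mem_L1 G).1 hb'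
        · exact Or.inr ⟨c, rfl⟩
        · exact Or.inl (Or.inr ⟨c, v, rfl⟩)
    · refine ⟨[Sum.inr (X0 c)], ?_, ?_⟩
      · simp [FI, act]
      · intro b' hb'
        have : b' = Sum.inr (X0 c) := by simpa using hb'
        subst this
        exact Or.inl (Or.inl ⟨c, rfl⟩)
    · refine ⟨[Sum.inr (X c v')], ?_, ?_⟩
      · simp [FI, act]
      · intro b' hb'
        have : b' = Sum.inr (X c v') := by simpa using hb'
        subst this
        exact Or.inl (Or.inr ⟨c, v', rfl⟩)
  · intro i hi hmem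
    have : i = t8 := by simpa using hi
    subst this
    simp [chk] at hmem
  · intro i hi hmem
    have : i = t8 := by simpa using hi
    subst this
    simp [chk, KB4] at hmem
  · intro i hi w hw j hj
    have : i = t8 := by simpa using hi
    subst this
    have : j = t8 := by simpa using hj
    subst this
    have : w = L1 G := hw
    subst this
    simp [act, chk, mem_L1]

theorem f9 (w : List T) (C : List (BB G))
    (hC : ∀ b ∈ C, (∃ c, b = Sum.inr (X0 c)) ∨ ∃ c v, b = Sum.inr (X c v)) :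
    ∃ C', (∀ b ∈ C', (∃ c v, b = Sum.inr (X c v)) ∨ ∃ m, b = Sum.inr (s m)) ∧
      Relation.ReflTransGen (sim G).Step (w.map Sum.inl ++ C) (w.map Sum.inl ++ C') := by
  refine ctl_step G ((all (T ⊕ N)).map t3) (w.map Sum.inl)
    (fun b => (∃ c, b = Sum.inr (X0 c)) ∨ ∃ c v, b = Sum.inr (X c v)) _ ?_ ?_ ?_ ?_ ?_ C hC
  · intro b hb j hj
    obtain ⟨c, -, rfl⟩ := List.mem_map.1 hb
    obtain ⟨a', ha', rfl⟩ := List.mem_map.1 hj
    simp [act]
  · intro b hb
    by_cases hr : ∃ c, b = Sum.inr (X0 c)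
    · obtain ⟨c, rfl⟩ := hr
      have h2 := FI_map_mem G (l := all (T ⊕ N)) (f := t3) (a := c) (mem_all c)
        (fun _ _ _ => rfl)
      have h3 : FI G ((all (T ⊕ N)).map t3) (Sum.inr (X0 c)) = _ := h2
      rw [h3]
      refine ⟨_, rfl, ?_⟩
      intro b' hb'
      obtain ⟨m, hm, rfl⟩ := List.mem_map.1 hb'
      exact Or.inr ⟨some m, rfl⟩
    · refine ⟨[b], ?_, ?_⟩
      · rw [FI_map_id]
        · rfl
        · intro a _ h
          exact hr ⟨a, h.symm⟩
      · intro b' hb'
        have : b' = b := by simpa using hb'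
        subst this
        rcases hb with h | h
        · exact absurd h hr
        · exact Or.inl h
  · intro i hi hmem
    obtain ⟨a', ha', rfl⟩ := List.mem_map.1 hi
    simp [chk] at hmem
  · intro i hi hmem
    obtain ⟨a', ha', rfl⟩ := List.mem_map.1 hi
    simp [chk] at hmem
  · intro i hi w hw j hj
    obtain ⟨a', ha', rfl⟩ := List.mem_map.1 hi
    obtain ⟨a'', ha'', rfl⟩ := List.mem_map.1 hj
    have : w = _ := hw
    subst this
    simp [act, chk]

theorem f10 (w : List T) (C : List (BB G))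
    (hC : ∀ b ∈ C, (∃ c v, b = Sum.inr (X c v)) ∨ ∃ m, b = Sum.inr (s m)) :
    ∃ C', (∀ b ∈ C', ∃ m, b = Sum.inr (s m)) ∧
      Relation.ReflTransGen (sim G).Step (w.map Sum.inl ++ C) (w.map Sum.inl ++ C') := by
  refine ctl_step G ((all ((T ⊕ N) × WW G)).map fun q => t3' q.1 q.2) (w.map Sum.inl)
    (fun b => (∃ c v, b = Sum.inr (X c v)) ∨ ∃ m, b = Sum.inr (s m)) _ ?_ ?_ ?_ ?_ ?_ C hC
  · intro b hb j hj
    obtain ⟨c, -, rfl⟩ := List.mem_map.1 hb
    obtain ⟨a', ha', rfl⟩ := List.mem_map.1 hj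
    simp [act]
  · intro b hb
    by_cases hr : ∃ c v, b = Sum.inr (X c v)
    · obtain ⟨c, v, rfl⟩ := hr
      have h2 := FI_map_mem G (l := all ((T ⊕ N) × WW G)) (f := fun q => t3' q.1 q.2)
        (a := (c, v)) (mem_all _) (by
          rintro ⟨c', v'⟩ _ h
          have : c' = c ∧ v' = v := by simpa [act] using h
          rw [this.1, this.2])
      have h3 : FI G ((all ((T ⊕ N) × WW G)).map fun q => t3' q.1 q.2) (Sum.inr (X c v)) = _ := h2
      rw [h3]
      refine ⟨_, rfl, ?_⟩
      intro b' hb'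
      obtain ⟨m, hm, rfl⟩ := List.mem_map.1 hb'
      exact ⟨m, rfl⟩
    · refine ⟨[b], ?_, ?_⟩
      · rw [FI_map_id]
        · rfl
        · intro a _ h
          exact hr ⟨a.1, a.2, h.symm⟩
      · intro b' hb'
        have : b' = b := by simpa using hb'
        subst this
        rcases hb with h | h
        · exact absurd h hr
        · exact h
  · intro i hi hmem
    obtain ⟨a', ha', rfl⟩ := List.mem_map.1 hi
    simp [chk] at hmem
  · intro i hi hmem
    obtain ⟨a', ha', rfl⟩ := List.mem_map.1 hi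
    simp [chk] at hmem
  · intro i hi w hw j hj
    obtain ⟨a', ha', rfl⟩ := List.mem_map.1 hi
    obtain ⟨a'', ha'', rfl⟩ := List.mem_map.1 hj
    have : w = _ := hw
    subst this
    simp [act, chk]

theorem f11 (w : List T) (C : List (BB G)) (hC : ∀ b ∈ C, ∃ m, b = Sum.inr (s m)) :
    ∃ C', (∀ b ∈ C', False) ∧
      Relation.ReflTransGen (sim G).Step (w.map Sum.inl ++ C) (w.map Sum.inl ++ C') := by
  refine ctl_step G ((all (Option (WW G))).map t5) (w.map Sum.inl)
    (fun b => ∃ m, b = Sum.inr (s m)) _ ?_ ?_ ?_ ?_ ?_ C hC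
  · intro b hb j hj
    obtain ⟨c, -, rfl⟩ := List.mem_map.1 hb
    obtain ⟨a', ha', rfl⟩ := List.mem_map.1 hj
    simp [act]
  · rintro _ ⟨m, rfl⟩
    refine ⟨[], ?_, by simp⟩
    have := FI_map_mem G (l := all (Option (WW G))) (f := t5) (a := m) (mem_all m)
      (fun _ _ _ => rfl)
    have h2 : FI G ((all (Option (WW G))).map t5) (Sum.inr (s m)) = {[]} := this
    rw [h2]; rfl
  · intro i hi hmem
    obtain ⟨a', ha', rfl⟩ := List.mem_map.1 hi
    simp [chk] at hmem
  · intro i hi hmem
    obtain ⟨a', ha', rfl⟩ := List.mem_map.1 hi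
    simp [chk] at hmem
  · intro i hi w hw j hj
    obtain ⟨a', ha', rfl⟩ := List.mem_map.1 hi
    have : w = [] := hw
    subst this
    simp

theorem sim_complete {w : List T} (hw : w ∈ G.language) : w ∈ (sim G).language := by
  obtain ⟨C0, hC0, h0⟩ := reach_mu G (x := w.map Sum.inl) hw
  obtain ⟨C1, hC1, h1⟩ := half1 G none (w.map Sum.inl) C0 hC0
  obtain ⟨C2, hC2, h2⟩ := f6 G w C1 hC1
  obtain ⟨C3, hC3, h3⟩ := f7 G w C2 hC2
  obtain ⟨C4, hC4, h4⟩ := m8 G (w.map Sum.inl) (by simp) (by simp) _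
    (by intro c hc; simp at hc) C3 hC3
  obtain ⟨C5, hC5, h5⟩ := f9 G w C4 hC4
  obtain ⟨C6, hC6, h6⟩ := f10 G w C5 hC5
  obtain ⟨C7, hC7, h7⟩ := f11 G w C6 hC6
  have hnil : C7 = [] := List.eq_nil_iff_forall_not_mem.2 fun b hb => hC7 b hb
  have hfin := (((((((Relation.ReflTransGen.trans h0 h1).trans h2).trans h3).trans h4).trans
    h5).trans h6).trans h7)
  rw [hnil, List.append_nil] at hfin
  exact hfin

theorem sim_language : (sim G).language = G.language :=
  Set.ext fun _ => ⟨sim_sound G, sim_complete G⟩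

end sim6

/-! ### Transport between the two presentations -/

section transport
variable {T N : Type}

theorem rew_transport {A : Type} {ι : A → ℕ} {h : ℕ → Set (List ℕ)} {h' : A → Set (List A)}
    (hh : ∀ c, h (ι c) = (List.map ι) '' (h' c)) {x : List A} {z : List ℕ} :
    Rew h (x.map ι) z ↔ ∃ y, z = y.map ι ∧ Rew h' x y := by
  induction x generalizing z with
  | nil =>
    rw [List.map_nil, rew_nil_iff]
    constructor
    · rintro rfl; exact ⟨[], rfl, Rew.nil⟩
    · rintro ⟨y, rfl, hy⟩
      rw [rew_nil_iff] at hy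
      subst hy; rfl
  | cons c x ih =>
    rw [List.map_cons, rew_cons_iff]
    constructor
    · rintro ⟨u, z', hu, hz', rfl⟩
      obtain ⟨y, rfl, hy⟩ := ih.1 hz'
      rw [hh] at hu
      obtain ⟨u', hu', rfl⟩ := hu
      exact ⟨u' ++ y, by simp, Rew.cons hu' hy⟩
    · rintro ⟨y, rfl, hy⟩
      obtain ⟨u', y', hu', hy', rfl⟩ := rew_cons_iff.1 hy
      refine ⟨u'.map ι, y'.map ι, ?_, ih.2 ⟨y', rfl, hy'⟩, by simp⟩
      rw [hh]
      exact ⟨u', hu', rfl⟩

/-- a correspondence between a system on `ℕ` and a system on the letter type `T ⊕ N` -/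
structure Corr (G : ET0L) (G' : TSys T N) (ι : T ⊕ N → ℕ) : Prop where
  inj : Function.Injective ι
  alph : ∀ n, n ∈ G.alphabet ↔ ∃ c, ι c = n
  start : G.start = G'.start.map ι
  tab1 : ∀ h ∈ G.tables, ∃ h' ∈ G'.tables, ∀ c, h (ι c) = (List.map ι) '' (h' c)
  tab2 : ∀ h' ∈ G'.tables, ∃ h ∈ G.tables, ∀ c, h (ι c) = (List.map ι) '' (h' c)

variable {G : ET0L} {G' : TSys T N} {ι : T ⊕ N → ℕ}

theorem Corr.der1 (hc : Corr G G' ι) {z : List ℕ}
    (hz : Relation.ReflTransGen G.Step G.start z) : ∃ y, z = y.map ι ∧ G'.Der y := by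
  induction hz with
  | refl => exact ⟨G'.start, hc.start, Relation.ReflTransGen.refl⟩
  | tail _ hs ih =>
    obtain ⟨y, rfl, hy⟩ := ih
    obtain ⟨h, hh, hr⟩ := hs
    obtain ⟨h', hh', he⟩ := hc.tab1 h hh
    obtain ⟨y', rfl, hy'⟩ := (rew_transport he).1 hr
    exact ⟨y', rfl, hy.tail ⟨h', hh', hy'⟩⟩

theorem Corr.der2 (hc : Corr G G' ι) {y : List (T ⊕ N)} (hy : G'.Der y) :
    Relation.ReflTransGen G.Step G.start (y.map ι) := by
  unfold TSys.Der at hy
  induction hy with
  | refl => rw [hc.start]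
  | tail _ hs ih =>
    obtain ⟨h', hh', hr⟩ := hs
    obtain ⟨h, hh, he⟩ := hc.tab2 h' hh'
    exact ih.tail ⟨h, hh, (rew_transport he).2 ⟨_, rfl, hr⟩⟩

theorem Corr.der (hc : Corr G G' ι) {y : List (T ⊕ N)} :
    G'.Der y ↔ Relation.ReflTransGen G.Step G.start (y.map ι) := by
  constructor
  · exact hc.der2
  · intro h
    obtain ⟨y', he, hy'⟩ := hc.der1 h
    rw [List.map_injective_iff.2 hc.inj he]
    exact hy'

theorem Corr.active (hc : Corr G G' ι) {h : ℕ → Set (List ℕ)}
    {h' : T ⊕ N → Set (List (T ⊕ N))} (he : ∀ c, h (ι c) = (List.map ι) '' (h' c)) :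
    {c | c ∈ G.alphabet ∧ h c ≠ {[c]}} = ι '' {c | h' c ≠ {[c]}} := by
  have key : ∀ c, h (ι c) = {[ι c]} ↔ h' c = {[c]} := by
    intro c
    have h1 : ({[ι c]} : Set (List ℕ)) = (List.map ι) '' {[c]} := by simp
    rw [he, h1]
    exact (Set.image_injective.2 (List.map_injective_iff.2 hc.inj)).eq_iff
  ext n
  constructor
  · rintro ⟨h1, h2⟩
    obtain ⟨c, rfl⟩ := (hc.alph n).1 h1
    exact ⟨c, fun h3 => h2 ((key c).2 h3), rfl⟩
  · rintro ⟨c, h1, rfl⟩
    exact ⟨(hc.alph _).2 ⟨c, rfl⟩, fun h3 => h1 ((key c).1 h3)⟩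

theorem Corr.restricted1 (hc : Corr G G' ι) {k : ℕ} (hG : G.IsRestricted k) :
    G'.IsRestricted k := by
  intro h' hh'
  obtain ⟨h, hh, he⟩ := hc.tab2 h' hh'
  have h1 := hG h hh
  rw [hc.active he, Set.ncard_image_of_injective _ hc.inj] at h1
  exact h1

theorem Corr.restricted2 (hc : Corr G G' ι) {k : ℕ} (hG : G'.IsRestricted k) :
    G.IsRestricted k := by
  intro h hh
  obtain ⟨h', hh', he⟩ := hc.tab1 h hh
  rw [hc.active he, Set.ncard_image_of_injective _ hc.inj]
  exact hG h' hh'

/-- from `ℕ` to `T ⊕ N` -/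
theorem exists_pull (G : ET0L) (ι : T ⊕ N → ℕ) (hinj : Function.Injective ι)
    (halph : ∀ n, n ∈ G.alphabet ↔ ∃ c, ι c = n) : ∃ G' : TSys T N, Corr G G' ι := by
  have hword : ∀ w : List ℕ, (∀ x ∈ w, x ∈ G.alphabet) → ∃ w' : List (T ⊕ N), w = w'.map ι := by
    intro w
    induction w with
    | nil => intro _; exact ⟨[], rfl⟩
    | cons n w ih =>
      intro h
      obtain ⟨w', rfl⟩ := ih fun x hx => h x (by simp [hx])
      obtain ⟨c, rfl⟩ := (halph n).1 (h n (by simp))
      exact ⟨c :: w', rfl⟩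
  let pl : (ℕ → Set (List ℕ)) → (T ⊕ N → Set (List (T ⊕ N))) :=
    fun h c => {w | w.map ι ∈ h (ι c)}
  have hpl : ∀ h ∈ G.tables, ∀ c, h (ι c) = (List.map ι) '' (pl h c) := by
    intro h hh c
    ext w
    constructor
    · intro hw
      obtain ⟨w', rfl⟩ := hword w (G.image_over h hh (ι c) ((halph _).2 ⟨c, rfl⟩) w hw)
      exact ⟨w', hw, rfl⟩
    · rintro ⟨w', hw', rfl⟩
      exact hw'
  obtain ⟨st, hst⟩ := hword G.start G.start_over
  refine ⟨⟨pl '' G.tables, G.tables_finite.image _, G.tables_nonempty.image _, ?_, ?_, st, ?_⟩,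
    hinj, halph, hst, ?_, ?_⟩
  · rintro _ ⟨h, hh, rfl⟩ c
    have h1 := G.image_finite h hh (ι c) ((halph _).2 ⟨c, rfl⟩)
    rw [hpl h hh c] at h1
    exact h1.of_finite_image (List.map_injective_iff.2 hinj).injOn
  · rintro _ ⟨h, hh, rfl⟩ c
    have h1 := G.image_nonempty h hh (ι c) ((halph _).2 ⟨c, rfl⟩)
    rw [hpl h hh c] at h1
    exact h1.of_image
  · rintro rfl
    exact G.start_ne_nil hst
  · intro h hh
    exact ⟨pl h, ⟨h, hh, rfl⟩, hpl h hh⟩
  · rintro _ ⟨h, hh, rfl⟩
    exact ⟨h, hh, hpl h hh⟩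

/-- from `T ⊕ N` to `ℕ` -/
theorem exists_push [Finite T] [Finite N] (G' : TSys T N) (ι : T ⊕ N → ℕ)
    (hinj : Function.Injective ι) (D : Finset ℕ) (hD : ∀ n ∈ D, ∃ c, ι c = n) :
    ∃ G : ET0L, G.terminals = D ∧ Corr G G' ι := by
  have hfin : (Set.range ι).Finite := Set.finite_range ι
  have halph : ∀ n, n ∈ hfin.toFinset ↔ ∃ c, ι c = n := by
    intro n; simp
  let ps : (T ⊕ N → Set (List (T ⊕ N))) → (ℕ → Set (List ℕ)) :=
    fun h' n => {w | ∃ c, ι c = n ∧ w ∈ (List.map ι) '' (h' c)}
  have hps : ∀ h' c, ps h' (ι c) = (List.map ι) '' (h' c) := by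
    intro h' c
    ext w
    constructor
    · rintro ⟨c', hc', hw⟩
      rw [hinj hc'] at hw
      exact hw
    · intro hw
      exact ⟨c, rfl, hw⟩
  refine ⟨⟨hfin.toFinset, ps '' G'.tables, G'.start.map ι, D, G'.tables_finite.image _,
    G'.tables_nonempty.image _, ?_, ?_, ?_, ?_, ?_, ?_⟩, rfl, hinj, halph, rfl, ?_, ?_⟩
  · rintro _ ⟨h', hh', rfl⟩ n hn
    obtain ⟨c, rfl⟩ := (halph n).1 hn
    rw [hps]
    exact (G'.image_finite h' hh' c).image _
  · rintro _ ⟨h', hh', rfl⟩ n hn
    obtain ⟨c, rfl⟩ := (halph n).1 hn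
    rw [hps]
    exact (G'.image_nonempty h' hh' c).image _
  · rintro _ ⟨h', hh', rfl⟩ n hn w hw x hx
    obtain ⟨c, rfl⟩ := (halph n).1 hn
    rw [hps] at hw
    obtain ⟨w', -, rfl⟩ := hw
    obtain ⟨d, -, rfl⟩ := List.mem_map.1 hx
    exact (halph _).2 ⟨d, rfl⟩
  · simpa using G'.start_ne_nil
  · intro x hx
    obtain ⟨d, -, rfl⟩ := List.mem_map.1 hx
    exact (halph _).2 ⟨d, rfl⟩
  · intro n hn
    exact (halph n).2 (hD n hn)
  · rintro _ ⟨h', hh', rfl⟩
    exact ⟨h', hh', hps h'⟩
  · intro h' hh'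
    exact ⟨ps h', ⟨h', hh', rfl⟩, hps h'⟩

end transport

theorem family_mono {k k' : ℕ} (h : k ≤ k') : family k ⊆ family k' := by
  rintro L ⟨G, hG, rfl⟩
  exact ⟨G, fun t ht => (hG t ht).trans h, rfl⟩

/-- every ET0L language is generated by a 2-restricted ET0L system -/
theorem family_two (k : ℕ) : family k ⊆ family 2 := by
  rintro L ⟨G, -, rfl⟩
  -- letter types
  let T : Type := {n // n ∈ G.terminals}
  let N : Type := {n // n ∈ G.alphabet ∧ n ∉ G.terminals}
  let ι : T ⊕ N → ℕ := Sum.elim Subtype.val Subtype.val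
  have hfT : Finite T := inferInstance
  have hfN : Finite N := by
    have : ({n | n ∈ G.alphabet ∧ n ∉ G.terminals} : Set ℕ).Finite :=
      G.alphabet.finite_toSet.subset fun n hn => hn.1
    exact this.to_subtype
  have hinj : Function.Injective ι := by
    rintro (⟨a, ha⟩ | ⟨a, ha⟩) (⟨b, hb⟩ | ⟨b, hb⟩) h
    · have : a = b := h
      subst this; rfl
    · have : a = b := h
      subst this; exact absurd ha hb.2
    · have : a = b := h
      subst this; exact absurd hb ha.2
    · have : a = b := h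
      subst this; rfl
  have halph : ∀ n, n ∈ G.alphabet ↔ ∃ c, ι c = n := by
    intro n
    constructor
    · intro hn
      by_cases ht : n ∈ G.terminals
      · exact ⟨Sum.inl ⟨n, ht⟩, rfl⟩
      · exact ⟨Sum.inr ⟨n, hn, ht⟩, rfl⟩
    · rintro ⟨⟨a, ha⟩ | ⟨a, ha⟩, rfl⟩
      · exact G.terminals_subset ha
      · exact ha.1
  obtain ⟨G1, hc1⟩ := exists_pull G ι hinj halph
  -- numbering of the letters of the simulating system
  obtain ⟨e, he⟩ : ∃ e : NL (T ⊕ N) (WW G1) → ℕ, Function.Injective e :=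
    Countable.exists_injective_nat _
  let ι' : T ⊕ NL (T ⊕ N) (WW G1) → ℕ := Sum.elim Subtype.val fun b => G.terminals.sup id + 1 + e b
  have hle : ∀ t : T, t.1 ≤ G.terminals.sup id := fun t => Finset.le_sup (f := id) t.2
  have hinj' : Function.Injective ι' := by
    rintro (a | a) (b | b) h
    · exact congrArg Sum.inl (Subtype.ext h)
    · have h1 : a.1 = G.terminals.sup id + 1 + e b := h
      have := hle a
      omega
    · have h1 : G.terminals.sup id + 1 + e a = b.1 := h
      have := hle b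
      omega
    · have h1 : G.terminals.sup id + 1 + e a = G.terminals.sup id + 1 + e b := h
      exact congrArg Sum.inr (he (by omega))
  obtain ⟨G2, hD, hc2⟩ := exists_push (sim G1) ι' hinj' G.terminals
    (fun n hn => ⟨Sum.inl ⟨n, hn⟩, rfl⟩)
  refine ⟨G2, hc2.restricted2 (sim_restricted G1), ?_⟩
  have hword : ∀ w : List ℕ, (∀ a ∈ w, a ∈ G.terminals) →
      ∃ w' : List T, w = w'.map Subtype.val := by
    intro w
    induction w with
    | nil => intro _; exact ⟨[], rfl⟩
    | cons n w ih =>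
      intro h
      obtain ⟨w', rfl⟩ := ih fun x hx => h x (by simp [hx])
      exact ⟨⟨n, h n (by simp)⟩ :: w', rfl⟩
  have hlang := sim_language G1
  ext w
  constructor
  · rintro ⟨h1, h2⟩
    rw [hD] at h1
    refine ⟨h1, ?_⟩
    obtain ⟨w', rfl⟩ := hword w h1
    have h3 : (w'.map Subtype.val : List ℕ) = (w'.map Sum.inl).map ι' := by
      rw [List.map_map]; rfl
    rw [h3, ← hc2.der] at h2
    have h4 : w' ∈ (sim G1).language := h2
    rw [hlang] at h4
    have h5 : (w'.map Subtype.val : List ℕ) = (w'.map Sum.inl).map ι := by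
      rw [List.map_map]; rfl
    rw [h5, ← hc1.der]
    exact h4
  · rintro ⟨h1, h2⟩
    refine ⟨by rw [hD]; exact h1, ?_⟩
    obtain ⟨w', rfl⟩ := hword w h1
    have h5 : (w'.map Subtype.val : List ℕ) = (w'.map Sum.inl).map ι := by
      rw [List.map_map]; rfl
    rw [h5, ← hc1.der] at h2
    have h4 : w' ∈ G1.language := h2
    rw [← hlang] at h4
    have h3 : (w'.map Subtype.val : List ℕ) = (w'.map Sum.inl).map ι' := by
      rw [List.map_map]; rfl
    rw [h3, ← hc2.der]
    exact h4

/-! ### The language `a^n b^n c^n` -/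

def anbncn : Set (List ℕ) :=
  {w | ∃ n, w = List.replicate n 0 ++ (List.replicate n 1 ++ List.replicate n 2)}

theorem anbncn_not_one : anbncn ∉ family 1 := by
  rintro ⟨G, hG, hL⟩
  have h1 : [0, 1, 2] ∈ G.language := by rw [hL]; exact ⟨1, rfl⟩
  have ht : ∀ t : Fin 3, (t : ℕ) ∈ G.terminals := by
    intro t
    refine h1.1 t ?_
    fin_cases t <;> simp
  let N : Type := {n // n ∈ G.alphabet ∧ 3 ≤ n}
  have hfN : Finite N := by
    have : ({n | n ∈ G.alphabet ∧ 3 ≤ n} : Set ℕ).Finite :=
      G.alphabet.finite_toSet.subset fun n hn => hn.1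
    exact this.to_subtype
  let ι : Fin 3 ⊕ N → ℕ := Sum.elim (fun t => (t : ℕ)) Subtype.val
  have hinj : Function.Injective ι := by
    rintro (a | ⟨a, ha⟩) (b | ⟨b, hb⟩) h
    · exact congrArg Sum.inl (Fin.ext h)
    · have h2 : (a : ℕ) = b := h
      have := a.2
      omega
    · have h2 : a = (b : ℕ) := h
      have := b.2
      omega
    · have : a = b := h
      subst this; rfl
  have halph : ∀ n, n ∈ G.alphabet ↔ ∃ c, ι c = n := by
    intro n
    constructor
    · intro hn
      by_cases h3 : n < 3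
      · exact ⟨Sum.inl ⟨n, h3⟩, rfl⟩
      · exact ⟨Sum.inr ⟨n, hn, by omega⟩, rfl⟩
    · rintro ⟨a | ⟨a, ha⟩, rfl⟩
      · exact G.terminals_subset (ht a)
      · exact ha.1
  obtain ⟨G1, hc⟩ := exists_pull G ι hinj halph
  have hmap : ∀ w : List (Fin 3), (w.map Sum.inl).map ι = w.map Fin.val := by
    intro w
    rw [List.map_map]; rfl
  have hlang : G1.language = {w | ∃ n, w = abc n} := by
    ext w
    have h2 : w ∈ G1.language ↔ w.map Fin.val ∈ G.language := by
      constructor
      · intro hw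
        refine ⟨?_, ?_⟩
        · intro a ha
          obtain ⟨t, -, rfl⟩ := List.mem_map.1 ha
          exact ht t
        · rw [← hmap, ← hc.der]
          exact hw
      · rintro ⟨-, hw⟩
        rw [← hmap, ← hc.der] at hw
        exact hw
    rw [h2, hL]
    have h3 : ∀ n, (List.replicate n 0 ++ (List.replicate n 1 ++ List.replicate n 2) : List ℕ) =
        (abc n).map Fin.val := by
      intro n
      simp [abc]
    constructor
    · rintro ⟨n, hn⟩
      rw [h3] at hn
      exact ⟨n, List.map_injective_iff.2 Fin.val_injective hn⟩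
    · rintro ⟨n, rfl⟩
      exact ⟨n, (h3 n).symm⟩
  refine not_one hlang ?_
  intro h hh
  have h2 := hc.restricted1 hG h hh
  by_cases hne : ∃ V, h V ≠ {[V]}
  · obtain ⟨V, hV⟩ := hne
    refine ⟨V, ?_⟩
    intro c hcV
    by_contra hcc
    exact hcV ((Set.ncard_le_one (Set.toFinite _)).1 h2 c hcc V hV)
  · push Not at hne
    refine ⟨Sum.inl 0, fun c _ => hne c⟩

/-- the first table of the system generating `a^n b^n c^n` -/
def tA (c : ℕ) : Set (List ℕ) :=
  if c = 3 then {[0, 3]} else if c = 4 then {[1, 4]} else if c = 5 then {[2, 5]} else {[c]}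

/-- the second table of the system generating `a^n b^n c^n` -/
def tB (c : ℕ) : Set (List ℕ) :=
  if c = 3 ∨ c = 4 ∨ c = 5 then {[]} else {[c]}

theorem rew_replicate {h : ℕ → Set (List ℕ)} {c n : ℕ} (hc : h c = {[c]}) {y : List ℕ} :
    Rew h (List.replicate n c) y ↔ y = List.replicate n c := by
  constructor
  · intro hr
    refine rew_id_eq (g := h) ?_ hr
    intro d hd
    rw [List.eq_of_mem_replicate hd]; exact hc
  · rintro rfl
    refine rew_id ?_
    intro d hd
    rw [List.eq_of_mem_replicate hd, hc]; rfl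

def sysABC : ET0L where
  alphabet := {0, 1, 2, 3, 4, 5}
  tables := {tA, tB}
  start := [3, 4, 5]
  terminals := {0, 1, 2}
  tables_finite := by simp
  tables_nonempty := ⟨tA, by simp⟩
  image_finite := by
    rintro h (rfl | rfl) c -
    · unfold tA; split_ifs <;> simp
    · unfold tB; split_ifs <;> simp
  image_nonempty := by
    rintro h (rfl | rfl) c -
    · unfold tA; split_ifs <;> simp
    · unfold tB; split_ifs <;> simp
  image_over := by
    rintro h (rfl | rfl) c hc w hw x hx
    · unfold tA at hw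
      split_ifs at hw
      · have : w = [0, 3] := hw
        subst this; simp at hx; rcases hx with rfl | rfl <;> simp
      · have : w = [1, 4] := hw
        subst this; simp at hx; rcases hx with rfl | rfl <;> simp
      · have : w = [2, 5] := hw
        subst this; simp at hx; rcases hx with rfl | rfl <;> simp
      · have : w = [c] := hw
        subst this
        have : x = c := by simpa using hx
        subst this; exact hc
    · unfold tB at hw
      split_ifs at hw
      · have : w = [] := hw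
        subst this; simp at hx
      · have : w = [c] := hw
        subst this
        have : x = c := by simpa using hx
        subst this; exact hc
  start_ne_nil := by simp
  start_over := by simp
  terminals_subset := by
    intro x hx
    simp at hx ⊢
    omega

/-- sentential forms of `sysABC` -/
def sform (n : ℕ) : List ℕ :=
  List.replicate n 0 ++ ([3] ++ (List.replicate n 1 ++ ([4] ++ (List.replicate n 2 ++ [5]))))

def tform (n : ℕ) : List ℕ :=
  List.replicate n 0 ++ (List.replicate n 1 ++ List.replicate n 2)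

theorem rew_tA_sform {n : ℕ} {y : List ℕ} : Rew tA (sform n) y ↔ y = sform (n + 1) := by
  unfold sform
  have e0 : tA 0 = {[0]} := by simp [tA]
  have e1 : tA 1 = {[1]} := by simp [tA]
  have e2 : tA 2 = {[2]} := by simp [tA]
  have e3 : tA 3 = {[0, 3]} := by simp [tA]
  have e4 : tA 4 = {[1, 4]} := by simp [tA]
  have e5 : tA 5 = {[2, 5]} := by simp [tA]
  have hs : ∀ c : ℕ, List.replicate (n + 1) c = List.replicate n c ++ [c] :=
    fun c => List.replicate_succ'
  simp only [rew_append_iff, rew_singleton_iff, rew_replicate e0, rew_replicate e1,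
    rew_replicate e2, e3, e4, e5, Set.mem_singleton_iff, hs]
  constructor
  · rintro ⟨_, _, rfl, ⟨_, _, rfl, ⟨_, _, rfl, ⟨_, _, rfl, ⟨_, _, rfl, rfl, rfl⟩, rfl⟩, rfl⟩,
      rfl⟩, rfl⟩
    simp
  · rintro rfl
    exact ⟨_, _, rfl, ⟨_, _, rfl, ⟨_, _, rfl, ⟨_, _, rfl, ⟨_, _, rfl, rfl, rfl⟩, rfl⟩, rfl⟩,
      rfl⟩, by simp⟩

theorem rew_tB_sform {n : ℕ} {y : List ℕ} : Rew tB (sform n) y ↔ y = tform n := by
  unfold sform tform
  have e0 : tB 0 = {[0]} := by simp [tB]
  have e1 : tB 1 = {[1]} := by simp [tB]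
  have e2 : tB 2 = {[2]} := by simp [tB]
  have e3 : tB 3 = {[]} := by simp [tB]
  have e4 : tB 4 = {[]} := by simp [tB]
  have e5 : tB 5 = {[]} := by simp [tB]
  simp only [rew_append_iff, rew_singleton_iff, rew_replicate e0, rew_replicate e1,
    rew_replicate e2, e3, e4, e5, Set.mem_singleton_iff]
  constructor
  · rintro ⟨_, _, rfl, ⟨_, _, rfl, ⟨_, _, rfl, ⟨_, _, rfl, ⟨_, _, rfl, rfl, rfl⟩, rfl⟩, rfl⟩,
      rfl⟩, rfl⟩
    simp
  · rintro rfl
    exact ⟨_, _, rfl, ⟨_, _, rfl, ⟨_, _, rfl, ⟨_, _, rfl, ⟨_, _, rfl, rfl, rfl⟩, rfl⟩, rfl⟩,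
      rfl⟩, by simp⟩

theorem rew_tform {h : ℕ → Set (List ℕ)} (h0 : h 0 = {[0]}) (h1 : h 1 = {[1]})
    (h2 : h 2 = {[2]}) {n : ℕ} {y : List ℕ} : Rew h (tform n) y ↔ y = tform n := by
  unfold tform
  simp only [rew_append_iff, rew_replicate h0, rew_replicate h1, rew_replicate h2]
  constructor
  · rintro ⟨_, _, rfl, ⟨_, _, rfl, rfl, rfl⟩, rfl⟩
    rfl
  · rintro rfl
    exact ⟨_, _, rfl, ⟨_, _, rfl, rfl, rfl⟩, rfl⟩

theorem sysABC_forms {y : List ℕ} (hy : Relation.ReflTransGen sysABC.Step sysABC.start y) :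
    ∃ n, y = sform n ∨ y = tform n := by
  induction hy with
  | refl => exact ⟨0, Or.inl rfl⟩
  | tail _ hs ih =>
    obtain ⟨n, rfl | rfl⟩ := ih
    · obtain ⟨h, rfl | rfl, hr⟩ := hs
      · exact ⟨n + 1, Or.inl (rew_tA_sform.1 hr)⟩
      · exact ⟨n, Or.inr (rew_tB_sform.1 hr)⟩
    · obtain ⟨h, rfl | rfl, hr⟩ := hs
      · exact ⟨n, Or.inr ((rew_tform (by simp [tA]) (by simp [tA]) (by simp [tA])).1 hr)⟩
      · exact ⟨n, Or.inr ((rew_tform (by simp [tB]) (by simp [tB]) (by simp [tB])).1 hr)⟩

theorem sysABC_sform (n : ℕ) :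
    Relation.ReflTransGen sysABC.Step sysABC.start (sform n) := by
  induction n with
  | zero => exact Relation.ReflTransGen.refl
  | succ n ih => exact ih.tail ⟨tA, Or.inl rfl, rew_tA_sform.2 rfl⟩

theorem sysABC_language : sysABC.language = anbncn := by
  ext w
  constructor
  · rintro ⟨h1, h2⟩
    obtain ⟨n, rfl | rfl⟩ := sysABC_forms h2
    · exfalso
      have := h1 3 (by simp [sform])
      simp [sysABC] at this
    · exact ⟨n, rfl⟩
  · rintro ⟨n, rfl⟩
    refine ⟨?_, (sysABC_sform n).tail ⟨tB, Or.inr rfl, rew_tB_sform.2 rfl⟩⟩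
    intro a ha
    simp only [List.mem_append, List.mem_replicate] at ha
    simp only [sysABC, Finset.mem_insert, Finset.mem_singleton]
    omega

theorem anbncn_two : anbncn ∈ family 2 := by
  refine family_two 6 ⟨sysABC, ?_, sysABC_language⟩
  intro h _
  have hsub : {c | c ∈ sysABC.alphabet ∧ h c ≠ {[c]}} ⊆ (sysABC.alphabet : Set ℕ) :=
    fun c hc => hc.1
  have h1 := Set.ncard_le_ncard hsub (Finset.finite_toSet _)
  rw [Set.ncard_coe_finset] at h1
  exact h1.trans (by decide)

/-- **Main theorem.** The least positive `l` such that, for every `k ≥ l`, the family of languages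
of `k`-restricted ET0L systems equals that of systems restricted with `k + 1`, is `2`. -/
theorem result : IsLeast {l : ℕ | 0 < l ∧ ∀ k, l ≤ k → family k = family (k + 1)} 2 := by
  constructor
  · refine ⟨by norm_num, ?_⟩
    intro k hk
    apply Set.Subset.antisymm
    · exact family_mono (Nat.le_succ k)
    · exact (family_two (k + 1)).trans (family_mono hk)
  · rintro l ⟨h0, hl⟩
    by_contra hlt
    have h1 : l = 1 := by omega
    subst h1
    have h2 : family 1 = family 2 := hl 1 le_rfl
    exact anbncn_not_one (h2 ▸ anbncn_two)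

end Pool.Agent.Results.MP_4de4a9_lc.CollapseAtTwo
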